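import Pool.Agent.Q48.FS.Ord

set_option autoImplicit false

/-!
# Sums of four squares: a lower bound for the expected number, and pairs of sums of two squares
-/

namespace Pool.Agent.Q48.FS

open Finset Pool.Agent.W65.FS

/-- a lower bound for the expected number of representations -/
theorem fund_lower (κ : ℕ) : ∃ δ : ℝ, 0 < δ ∧ ∃ n₀ : ℕ, ∀ n M z : ℕ, Odd n → n₀ ≤ n → 0 < M → Odd M →
    Squarefree M → (M : ℝ) ≤ (n : ℝ) ^ δ → (z : ℝ) ≤ (n : ℝ) ^ δ → ∀ v : Fin 4 → ℤ, Good n M v →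
    ∀ B : ℕ → Finset (Fin 4 → ℤ), (∀ l ∈ Pr M z, B l ⊆ Gl n l ∧ (B l).card ≤ κ * l ^ 2) → (∀ l ∈ Pr M z, B l ≠ Gl n l) →
      (n : ℝ) ^ (9 / 10 : ℝ) ≤ (prc n M v).card * Vd n M z B := by
  classical
  obtain ⟨c, C', hc, hC', hlow⟩ := mass_lower
  obtain ⟨z0, hz0⟩ : ∃ z0, z0 = 2 * κ + 1 := ⟨_, rfl⟩
  obtain ⟨m, hm⟩ : ∃ m, m = 2 * κ + 40 := ⟨_, rfl⟩
  obtain ⟨δ, hδ⟩ : ∃ δ : ℝ, δ = 1 / (100 * m) := ⟨_, rfl⟩
  have hm0 : (0 : ℝ) < m := by exact_mod_cast (show 0 < m by omega)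
  have hδ0 : 0 < δ := by rw [hδ]; positivity
  have hz0pos : (0 : ℝ) < z0 := by exact_mod_cast (show 0 < z0 by omega)
  obtain ⟨K2, hK2⟩ : ∃ K2 : ℝ, K2 = (c / 2) * ((1 / (z0 : ℝ) ^ 4) ^ z0 * (Real.exp (-(2 * κ)) / 2 ^ (2 * κ))) := ⟨_, rfl⟩
  have hK20 : 0 < K2 := by rw [hK2]; positivity
  obtain ⟨n1, hn1⟩ := large_rpow (C' / (c / 2)) (7 / 200) (by norm_num)
  obtain ⟨n2, hn2⟩ := large_rpow (1 / K2) (7 / 200) (by norm_num)
  refine ⟨δ, hδ0, n1 + n2, ?_⟩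
  intro n M z hno hnbig hM hMo hMs hMn hzn v hv B hB hne
  have hn : 1 ≤ n := hno.pos
  have hnr : (1 : ℝ) ≤ n := by exact_mod_cast hn
  have hn0 : (0 : ℝ) < n := by linarith
  have hn1' := hn1 n (by omega)
  have hn2' := hn2 n (by omega)
  obtain ⟨Y, hY⟩ : ∃ Y : ℝ, Y = (n : ℝ) ^ δ := ⟨_, rfl⟩
  rw [← hY] at hMn hzn
  have hY1 : 1 ≤ Y := by rw [hY]; exact Real.one_le_rpow hnr hδ0.le
  have hY0 : 0 < Y := by linarith
  have hYm : ∀ j : ℕ, j ≤ m → Y ^ j ≤ (n : ℝ) ^ (1 / 100 : ℝ) := by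
    intro j hj
    rw [hY, ← Real.rpow_natCast, ← Real.rpow_mul hn0.le]
    apply Real.rpow_le_rpow_of_exponent_le hnr
    rw [hδ, one_div, mul_comm, ← div_eq_mul_inv, div_le_div_iff₀ (by positivity) (by norm_num)]
    have : (j : ℝ) ≤ m := by exact_mod_cast hj
    linarith
  have hkey : (n : ℝ) ^ (1 / 100 : ℝ) * (n : ℝ) ^ (19 / 20 : ℝ) * (n : ℝ) ^ (7 / 200 : ℝ) = (n : ℝ) ^ (199 / 200 : ℝ) := by
    rw [← Real.rpow_add hn0, ← Real.rpow_add hn0]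
    norm_num
  have hM0 : (0 : ℝ) < M := by exact_mod_cast hM
  have hR : c / 2 * (n : ℝ) ^ (199 / 200 : ℝ) / Y ^ 4 ≤ ((prc n M v).card : ℝ) := by
    have h1 := hlow n M hno hM hMo hMs v hv
    have h2 : c * (n : ℝ) ^ (199 / 200 : ℝ) / Y ^ 4 ≤ c * (n : ℝ) ^ (199 / 200 : ℝ) / (M : ℝ) ^ 4 := by gcongr
    have h3 : C' * (M : ℝ) ^ 15 * (n : ℝ) ^ (19 / 20 : ℝ) ≤ C' * Y ^ 15 * (n : ℝ) ^ (19 / 20 : ℝ) := by gcongr
    have h4 : C' * Y ^ 15 * (n : ℝ) ^ (19 / 20 : ℝ) ≤ c / 2 * (n : ℝ) ^ (199 / 200 : ℝ) / Y ^ 4 := by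
      rw [le_div_iff₀ (by positivity)]
      rw [div_le_iff₀ (by positivity)] at hn1'
      calc C' * Y ^ 15 * (n : ℝ) ^ (19 / 20 : ℝ) * Y ^ 4 = C' * (Y ^ 19 * (n : ℝ) ^ (19 / 20 : ℝ)) := by ring
        _ ≤ ((n : ℝ) ^ (7 / 200 : ℝ) * (c / 2)) * ((n : ℝ) ^ (1 / 100 : ℝ) * (n : ℝ) ^ (19 / 20 : ℝ)) := by
            gcongr
            exact hYm 19 (by omega)
        _ = c / 2 * ((n : ℝ) ^ (1 / 100 : ℝ) * (n : ℝ) ^ (19 / 20 : ℝ) * (n : ℝ) ^ (7 / 200 : ℝ)) := by ring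
        _ = _ := by rw [hkey]
    have h5 : c * (n : ℝ) ^ (199 / 200 : ℝ) / Y ^ 4 = 2 * (c / 2 * (n : ℝ) ^ (199 / 200 : ℝ) / Y ^ 4) := by ring
    linarith
  have hR0 : (0 : ℝ) ≤ ((prc n M v).card : ℝ) := Nat.cast_nonneg _
  have hV := Vd_lower κ z0 (by omega) n M z B hB (fun l hl _ => hne l hl)
  have hV' : (1 / (z0 : ℝ) ^ 4) ^ z0 * (Real.exp (-(2 * κ)) / (2 ^ (2 * κ) * Y ^ (2 * κ))) ≤ Vd n M z B := by
    refine le_trans ?_ hV
    rw [← mul_pow]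
    gcongr
    linarith
  have hmain : K2 * (n : ℝ) ^ (199 / 200 : ℝ) / Y ^ (4 + 2 * κ) ≤ (prc n M v).card * Vd n M z B := by
    calc K2 * (n : ℝ) ^ (199 / 200 : ℝ) / Y ^ (4 + 2 * κ) = (c / 2 * (n : ℝ) ^ (199 / 200 : ℝ) / Y ^ 4) *
          ((1 / (z0 : ℝ) ^ 4) ^ z0 * (Real.exp (-(2 * κ)) / (2 ^ (2 * κ) * Y ^ (2 * κ)))) := by
            rw [hK2, pow_add]
            field_simp
      _ ≤ _ := mul_le_mul hR hV' (by positivity) hR0
  refine le_trans ?_ hmain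
  rw [le_div_iff₀ (by positivity)]
  rw [div_le_iff₀ hK20] at hn2'
  have h9 : (n : ℝ) ^ (9 / 10 : ℝ) ≤ (n : ℝ) ^ (19 / 20 : ℝ) := Real.rpow_le_rpow_of_exponent_le hnr (by norm_num)
  calc (n : ℝ) ^ (9 / 10 : ℝ) * Y ^ (4 + 2 * κ) ≤ (n : ℝ) ^ (19 / 20 : ℝ) * (n : ℝ) ^ (1 / 100 : ℝ) := by
        gcongr
        exact hYm _ (by omega)
    _ = 1 * ((n : ℝ) ^ (1 / 100 : ℝ) * (n : ℝ) ^ (19 / 20 : ℝ)) := by ring
    _ ≤ ((n : ℝ) ^ (7 / 200 : ℝ) * K2) * ((n : ℝ) ^ (1 / 100 : ℝ) * (n : ℝ) ^ (19 / 20 : ℝ)) := by gcongr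
    _ = K2 * ((n : ℝ) ^ (1 / 100 : ℝ) * (n : ℝ) ^ (19 / 20 : ℝ) * (n : ℝ) ^ (7 / 200 : ℝ)) := by ring
    _ = _ := by rw [hkey]

/-- the first sum of two squares: `2 (x² + y² + z² + w²)` is the sum of the two -/
def sa (X : Fin 4 → ℤ) : ℤ := (X 0 + X 1) ^ 2 + (X 2 + X 3) ^ 2

/-- the second sum of two squares -/
def sb (X : Fin 4 → ℤ) : ℤ := (X 0 - X 1) ^ 2 + (X 2 - X 3) ^ 2

lemma sa_add_sb (X : Fin 4 → ℤ) : sa X + sb X = 2 * ∑ i, X i ^ 2 := by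
  unfold sa sb
  rw [Fin.sum_univ_four]
  ring

lemma sa_congr (l : ℕ) (X Y : Fin 4 → ℤ) (h : ∀ i, (l : ℤ) ∣ X i - Y i) : (l : ℤ) ∣ sa X - sa Y := by
  have e : sa X - sa Y = ((X 0 - Y 0) + (X 1 - Y 1)) * (X 0 + X 1 + Y 0 + Y 1) +
      ((X 2 - Y 2) + (X 3 - Y 3)) * (X 2 + X 3 + Y 2 + Y 3) := by
    unfold sa
    ring
  rw [e]
  exact dvd_add ((dvd_add (h 0) (h 1)).mul_right _) ((dvd_add (h 2) (h 3)).mul_right _)

lemma sb_congr (l : ℕ) (X Y : Fin 4 → ℤ) (h : ∀ i, (l : ℤ) ∣ X i - Y i) : (l : ℤ) ∣ sb X - sb Y := by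
  have e : sb X - sb Y = ((X 0 - Y 0) - (X 1 - Y 1)) * (X 0 - X 1 + Y 0 - Y 1) +
      ((X 2 - Y 2) - (X 3 - Y 3)) * (X 2 - X 3 + Y 2 - Y 3) := by
    unfold sb
    ring
  rw [e]
  exact dvd_add ((dvd_sub (h 0) (h 1)).mul_right _) ((dvd_sub (h 2) (h 3)).mul_right _)

lemma card_sq (l : ℕ) (hl : l.Prime) (S : Finset ℤ) (hS : ∀ t ∈ S, 0 ≤ t ∧ t < l) (k : ℤ)
    (h : ∀ t ∈ S, (l : ℤ) ∣ t ^ 2 - k) : S.card ≤ 2 := by
  refine card_le_two_of_sum l hl.pos 0 S hS (fun t ht t' ht' hne => ?_)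
  rw [sub_zero]
  have h1 := dvd_sub (h t ht) (h t' ht')
  have e : t ^ 2 - k - (t' ^ 2 - k) = (t - t') * (t + t') := by ring
  rw [e] at h1
  rcases (Nat.prime_iff_prime_int.1 hl).dvd_or_dvd h1 with h2 | h2
  · exact absurd (eq_of_dvd (hS t ht) (hS t' ht') h2) hne
  · exact h2

open Classical in
/-- solutions modulo `l` with a prescribed value of the first sum of two squares -/
lemma card_sa (n l : ℕ) (hl : l.Prime) (hl2 : l ≠ 2) (t : ℤ) :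
    ((Gl n l).filter (fun c => (l : ℤ) ∣ sa c - t)).card ≤ 4 * l ^ 2 := by
  have hl0 := hl.pos
  obtain ⟨S, hS⟩ : ∃ S, S = (Gl n l).filter (fun c => (l : ℤ) ∣ sa c - t) := ⟨_, rfl⟩
  rw [← hS]
  have hSm : ∀ c ∈ S, (∀ i, 0 ≤ c i ∧ c i < l) ∧ (l : ℤ) ∣ (∑ i, c i ^ 2) - n ∧ (l : ℤ) ∣ sa c - t := by
    intro c hc
    rw [hS, mem_filter, mem_Gl] at hc
    exact ⟨hc.1.1, hc.1.2.1, hc.2⟩
  refine (card_le_mul_card_image (f := fun c : Fin 4 → ℤ => (c 0, c 1)) S 4 ?_).trans (Nat.mul_le_mul_left 4 ?_)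
  · intro a _
    obtain ⟨F, hF⟩ : ∃ F, F = S.filter (fun c : Fin 4 → ℤ => (c 0, c 1) = a) := ⟨_, rfl⟩
    rw [← hF]
    have hFm : ∀ c ∈ F, c ∈ S ∧ c 0 = a.1 ∧ c 1 = a.2 := by
      intro c hc
      rw [hF, mem_filter] at hc
      refine ⟨hc.1, ?_, ?_⟩
      · exact congrArg Prod.fst hc.2
      · exact congrArg Prod.snd hc.2
    have hinj : Set.InjOn (fun c : Fin 4 → ℤ => ((c 2 + c 3) % (l : ℤ), (c 2 - c 3) % (l : ℤ))) (F : Set (Fin 4 → ℤ)) := by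
      intro c hc c' hc' h
      rw [mem_coe] at hc hc'
      obtain ⟨hcS, h0, h1⟩ := hFm c hc
      obtain ⟨hcS', h0', h1'⟩ := hFm c' hc'
      have hb := (hSm c hcS).1
      have hb' := (hSm c' hcS').1
      simp only [Prod.mk.injEq] at h
      have e1 := dvd_of_emod_eq h.1
      have e2 := dvd_of_emod_eq h.2
      have e3 : (l : ℤ) ∣ 2 * ((c 2 - c' 2) * 1) := by
        have := dvd_add e1 e2
        have e : c 2 + c 3 - (c' 2 + c' 3) + (c 2 - c 3 - (c' 2 - c' 3)) = 2 * ((c 2 - c' 2) * 1) := by ring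
        rwa [e] at this
      have e4 : (l : ℤ) ∣ 2 * ((c 3 - c' 3) * 1) := by
        have := dvd_sub e1 e2
        have e : c 2 + c 3 - (c' 2 + c' 3) - (c 2 - c 3 - (c' 2 - c' 3)) = 2 * ((c 3 - c' 3) * 1) := by ring
        rwa [e] at this
      have hone : ¬ (l : ℤ) ∣ 1 := by
        intro h5
        have h6 : l ∣ 1 := by exact_mod_cast h5
        exact hl.one_lt.ne' (Nat.dvd_one.1 h6)
      have h2 := eq_of_dvd (hb 2) (hb' 2) ((prime_cancel_two hl hl2 e3).resolve_right hone)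
      have h3 := eq_of_dvd (hb 3) (hb' 3) ((prime_cancel_two hl hl2 e4).resolve_right hone)
      funext i
      fin_cases i
      · exact h0.trans h0'.symm
      · exact h1.trans h1'.symm
      · exact h2
      · exact h3
    rw [← card_image_of_injOn hinj]
    have hl0' : (0 : ℤ) < l := by exact_mod_cast hl0
    have hsub : F.image (fun c : Fin 4 → ℤ => ((c 2 + c 3) % (l : ℤ), (c 2 - c 3) % (l : ℤ))) ⊆
        (F.image (fun c : Fin 4 → ℤ => (c 2 + c 3) % (l : ℤ))) ×ˢ (F.image (fun c : Fin 4 → ℤ => (c 2 - c 3) % (l : ℤ))) := by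
      intro b hb
      obtain ⟨c, hc, rfl⟩ := mem_image.1 hb
      rw [mem_product]
      exact ⟨mem_image_of_mem _ hc, mem_image_of_mem _ hc⟩
    refine (card_le_card hsub).trans ?_
    rw [card_product]
    have hA : (F.image (fun c : Fin 4 → ℤ => (c 2 + c 3) % (l : ℤ))).card ≤ 2 := by
      refine card_sq l hl _ (fun s hs => ?_) (t - (a.1 + a.2) ^ 2) (fun s hs => ?_)
      · obtain ⟨c, hc, rfl⟩ := mem_image.1 hs
        exact ⟨Int.emod_nonneg _ hl0'.ne', Int.emod_lt_of_pos _ hl0'⟩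
      · obtain ⟨c, hc, rfl⟩ := mem_image.1 hs
        obtain ⟨hcS, h0, h1⟩ := hFm c hc
        have h2 := (hSm c hcS).2.2
        unfold sa at h2
        rw [h0, h1] at h2
        have h3 : (l : ℤ) ∣ (c 2 + c 3) % (l : ℤ) - (c 2 + c 3) := by
          have := (Int.dvd_self_sub_emod (x := c 2 + c 3) (m := (l : ℤ)))
          have e := this.neg_right
          rwa [neg_sub] at e
        have e : ((c 2 + c 3) % (l : ℤ)) ^ 2 - (t - (a.1 + a.2) ^ 2) =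
            ((c 2 + c 3) % (l : ℤ) - (c 2 + c 3)) * ((c 2 + c 3) % (l : ℤ) + (c 2 + c 3)) + ((a.1 + a.2) ^ 2 + (c 2 + c 3) ^ 2 - t) := by ring
        rw [e]
        exact dvd_add (h3.mul_right _) h2
    have hB : (F.image (fun c : Fin 4 → ℤ => (c 2 - c 3) % (l : ℤ))).card ≤ 2 := by
      refine card_sq l hl _ (fun s hs => ?_) (2 * n - t - (a.1 - a.2) ^ 2) (fun s hs => ?_)
      · obtain ⟨c, hc, rfl⟩ := mem_image.1 hs
        exact ⟨Int.emod_nonneg _ hl0'.ne', Int.emod_lt_of_pos _ hl0'⟩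
      · obtain ⟨c, hc, rfl⟩ := mem_image.1 hs
        obtain ⟨hcS, h0, h1⟩ := hFm c hc
        have h2 := (hSm c hcS).2.2
        have h4 := (hSm c hcS).2.1
        have h5 : (l : ℤ) ∣ sb c - (2 * n - t) := by
          have e : sb c - (2 * n - t) = 2 * ((∑ i, c i ^ 2) - n) - (sa c - t) := by
            linear_combination sa_add_sb c
          rw [e]
          exact dvd_sub (h4.mul_left 2) h2
        unfold sb at h5
        rw [h0, h1] at h5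
        have h3 : (l : ℤ) ∣ (c 2 - c 3) % (l : ℤ) - (c 2 - c 3) := by
          have := (Int.dvd_self_sub_emod (x := c 2 - c 3) (m := (l : ℤ)))
          have e := this.neg_right
          rwa [neg_sub] at e
        have e : ((c 2 - c 3) % (l : ℤ)) ^ 2 - (2 * n - t - (a.1 - a.2) ^ 2) =
            ((c 2 - c 3) % (l : ℤ) - (c 2 - c 3)) * ((c 2 - c 3) % (l : ℤ) + (c 2 - c 3)) +
              ((a.1 - a.2) ^ 2 + (c 2 - c 3) ^ 2 - (2 * n - t)) := by ring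
        rw [e]
        exact dvd_add (h3.mul_right _) h5
    calc _ ≤ 2 * 2 := Nat.mul_le_mul hA hB
      _ = 4 := rfl
  · refine (card_le_card (t := Ico (0 : ℤ) l ×ˢ Ico (0 : ℤ) l) ?_).trans (by rw [card_product]; simp [pow_two])
    intro a ha
    obtain ⟨c, hc, rfl⟩ := mem_image.1 ha
    have hb := (hSm c hc).1
    rw [mem_product, mem_Ico, mem_Ico]
    exact ⟨hb 0, hb 1⟩

/-- a solution modulo `l` with prescribed values of the two sums of two squares -/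
lemma exists_sa (n l : ℕ) (hl : l.Prime) (hl2 : l ≠ 2) (t : ℤ) (ht : ¬ (l : ℤ) ∣ t) :
    ∃ c ∈ Gl n l, (l : ℤ) ∣ sa c - t := by
  have : Fact l.Prime := ⟨hl⟩
  obtain ⟨A, B, hAB⟩ := ZMod.sq_add_sq l (t : ZMod l)
  obtain ⟨C, D, hCD⟩ := ZMod.sq_add_sq l ((2 * n - t : ℤ) : ZMod l)
  have h2 : (2 : ZMod l) ≠ 0 := by
    intro h
    have h3 : ((2 : ℕ) : ZMod l) = 0 := by exact_mod_cast h
    exact hl2 ((Nat.prime_dvd_prime_iff_eq hl Nat.prime_two).1 ((ZMod.natCast_eq_zero_iff 2 l).1 h3))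
  have hl0 : (0 : ℤ) < l := by exact_mod_cast hl.pos
  obtain ⟨u, hu⟩ : ∃ u : Fin 4 → ZMod l, u = ![(A + C) / 2, (A - C) / 2, (B + D) / 2, (B - D) / 2] := ⟨_, rfl⟩
  refine ⟨fun i => ((u i).val : ℤ), ?_, ?_⟩
  · rw [mem_Gl]
    have hsum : (l : ℤ) ∣ (∑ i, (((u i).val : ℤ)) ^ 2) - n := by
      rw [← ZMod.intCast_zmod_eq_zero_iff_dvd]
      push_cast
      simp only [ZMod.natCast_val, ZMod.cast_id', id]
      rw [Fin.sum_univ_four, hu]
      simp only [Matrix.cons_val_zero, Matrix.cons_val_one, Matrix.cons_val]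
      push_cast at hCD
      field_simp
      linear_combination 2 * hAB + 2 * hCD
    refine ⟨fun i => ⟨by positivity, by exact_mod_cast ZMod.val_lt (u i)⟩, hsum, ?_⟩
    by_contra hcon
    push Not at hcon
    have h3 : ∀ i, u i = 0 := fun i => by
      have := (ZMod.intCast_zmod_eq_zero_iff_dvd _ l).2 (hcon i)
      simpa using this
    apply ht
    rw [← ZMod.intCast_zmod_eq_zero_iff_dvd, ← hAB]
    have h30 := h3 0
    have h31 := h3 1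
    have h32 := h3 2
    have h33 := h3 3
    rw [hu] at h30 h31 h32 h33
    simp only [Matrix.cons_val_zero, Matrix.cons_val_one, Matrix.cons_val] at h30 h31 h32 h33
    have hA : A = 0 := by
      have : A = (A + C) / 2 + (A - C) / 2 := by field_simp; ring
      rw [this, h30, h31, add_zero]
    have hB : B = 0 := by
      have : B = (B + D) / 2 + (B - D) / 2 := by field_simp; ring
      rw [this, h32, h33, add_zero]
    rw [hA, hB]
    ring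
  · rw [← ZMod.intCast_zmod_eq_zero_iff_dvd]
    unfold sa
    push_cast
    simp only [ZMod.natCast_val, ZMod.cast_id', id]
    rw [hu]
    simp only [Matrix.cons_val_zero, Matrix.cons_val_one, Matrix.cons_val]
    have hA : (A + C) / 2 + (A - C) / 2 = A := by field_simp; ring
    have hB : (B + D) / 2 + (B - D) / 2 = B := by field_simp; ring
    rw [hA, hB, hAB, sub_self]

end Pool.Agent.Q48.FS
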