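import Pool.Agent.Q48.FS.Sieve

set_option autoImplicit false

/-!
# Sums of four squares: the fundamental lemma of the sieve, uniformly in residue classes (final form)
-/

namespace Pool.Agent.Q48.FS

open Finset Pool.Agent.W65.FS

/-- a lower bound for the expected proportion -/
lemma Vd_lower (κ z0 : ℕ) (hz0 : 2 * κ + 1 ≤ z0) (n M z : ℕ) (B : ℕ → Finset (Fin 4 → ℤ))
    (hB : ∀ l ∈ Pr M z, B l ⊆ Gl n l ∧ (B l).card ≤ κ * l ^ 2) (hne : ∀ l ∈ Pr M z, l ≤ z0 → B l ≠ Gl n l) :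
    (1 / (z0 : ℝ) ^ 4) ^ z0 * (Real.exp (-(2 * κ)) / ((z : ℝ) + 1) ^ (2 * κ)) ≤ Vd n M z B := by
  classical
  unfold Vd
  rw [Pr_split M z z0, prod_union (Pr_disj M z z0)]
  have hPr : ∀ l ∈ Pr M z, l.Prime ∧ ¬ l ∣ M ∧ l ≠ 2 ∧ l ≤ z := fun l hl => by
    rw [mem_Pr] at hl
    exact ⟨hl.2.1, hl.2.2, by omega, hl.1.2⟩
  have hGpos : ∀ l ∈ Pr M z, 0 < ((Gl n l).card : ℝ) := fun l hl => Gl_pos n l (hPr l hl).1 (hPr l hl).2.2.1
  have hz0r : (1 : ℝ) ≤ z0 := by exact_mod_cast (show 1 ≤ z0 by omega)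
  have hbase : (1 / (z0 : ℝ) ^ 4) ≤ 1 := by
    rw [div_le_one (by positivity)]
    exact one_le_pow₀ hz0r
  refine mul_le_mul ?_ ?_ (by positivity) ?_
  · calc (1 / (z0 : ℝ) ^ 4) ^ z0 ≤ (1 / (z0 : ℝ) ^ 4) ^ ((Pr M z).filter (· ≤ z0)).card := by
          apply pow_le_pow_of_le_one (by positivity) hbase
          have h1 : (Pr M z).filter (· ≤ z0) ⊆ Icc 1 z0 := by
            intro l hl
            rw [mem_filter, mem_Pr] at hl
            rw [mem_Icc]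
            omega
          simpa using card_le_card h1
      _ = ∏ l ∈ (Pr M z).filter (· ≤ z0), (1 / (z0 : ℝ) ^ 4) := by rw [prod_const]
      _ ≤ _ := by
        apply prod_le_prod
        · intro l _; positivity
        · intro l hl
          rw [mem_filter] at hl
          have h1 := hGpos l hl.1
          have h2 : (B l).card + 1 ≤ (Gl n l).card := by
            have := card_lt_card (Finset.ssubset_iff_subset_ne.2 ⟨(hB l hl.1).1, hne l hl.1 hl.2⟩)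
            omega
          have h3 : ((B l).card : ℝ) + 1 ≤ (Gl n l).card := by exact_mod_cast h2
          have h4 : ((Gl n l).card : ℝ) ≤ (z0 : ℝ) ^ 4 := by
            have := (card_Gl_le n l).trans (Nat.pow_le_pow_left hl.2 4)
            exact_mod_cast this
          have h5 : 1 - ((B l).card : ℝ) / (Gl n l).card = ((Gl n l).card - (B l).card) / (Gl n l).card := by
            rw [sub_div, div_self h1.ne']
          rw [h5]
          exact div_le_div₀ (by linarith) (by linarith) h1 h4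
  · have h1 := prod_lower κ (z + 1) (by omega) ((Pr M z).filter (z0 < ·)) (fun p hp => by
        rw [mem_filter] at hp
        exact ⟨(hPr p hp.1).1.two_le, by have := (hPr p hp.1).2.2.2; omega⟩)
      (fun l => ((B l).card : ℝ) / (Gl n l).card) (fun p _ => by positivity)
      (fun l hl => ?_) (fun l hl => ?_)
    · refine le_trans (le_of_eq ?_) h1
      rw [div_eq_mul_inv, Real.rpow_neg (by positivity)]
      congr 2
      have e : (2 * κ : ℝ) = ((2 * κ : ℕ) : ℝ) := by push_cast; ring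
      rw [e, Real.rpow_natCast]
      push_cast
      ring
    · rw [mem_filter] at hl
      have hlp := hPr l hl.1
      exact gg_bound' κ n l hlp.1 hlp.2.2.1 (B l) (hB l hl.1).2
    · rw [mem_filter] at hl
      have hlp := hPr l hl.1
      refine (gg_bound' κ n l hlp.1 hlp.2.2.1 (B l) (hB l hl.1).2).trans ?_
      have h1 : (z0 : ℝ) < l := by exact_mod_cast hl.2
      have h2 : 2 * (κ : ℝ) + 1 ≤ z0 := by exact_mod_cast hz0
      rw [div_le_div_iff₀ (by linarith) (by norm_num)]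
      linarith
  · apply prod_nonneg
    intro l hl
    rw [mem_filter] at hl
    have h1 := hGpos l hl.1
    rw [sub_nonneg, div_le_one h1]
    exact_mod_cast card_le_card (hB l hl.1).1

/-- **The fundamental lemma for sums of four squares**, uniform in residue classes and excluded classes. -/
theorem fund (κ : ℕ) (ε : ℝ) (hε : 0 < ε) : ∃ δ : ℝ, 0 < δ ∧ ∃ n₀ : ℕ, ∀ n M z : ℕ, Odd n → n₀ ≤ n → 0 < M → Odd M →
    Squarefree M → (M : ℝ) ≤ (n : ℝ) ^ δ → (z : ℝ) ≤ (n : ℝ) ^ δ → ∀ v : Fin 4 → ℤ, Good n M v →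
    |((prc n M v).card : ℝ) - (preps n).card * ∏ l ∈ M.primeFactors, (1 / ((Gl n l).card : ℝ))| ≤
      ε * (prc n M v).card ∧ (n : ℝ) ^ (9 / 10 : ℝ) ≤ (prc n M v).card ∧
    ∀ B : ℕ → Finset (Fin 4 → ℤ), (∀ l ∈ Pr M z, B l ⊆ Gl n l ∧ (B l).card ≤ κ * l ^ 2) →
      |((sift n M v z B).card : ℝ) - (prc n M v).card * Vd n M z B| ≤ ε * ((prc n M v).card * Vd n M z B) := by
  classical
  obtain ⟨C0, hC0, C, hC, hsieve⟩ := sieve κ
  obtain ⟨Cm, hCm, hmass⟩ := mass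
  obtain ⟨c, C', hc, hC', hlow⟩ := mass_lower
  obtain ⟨b0, hb0⟩ := exists_pow_lt_of_lt_one (show (0 : ℝ) < ε / 2 by positivity) (show (1 / 2 : ℝ) < 1 by norm_num)
  obtain ⟨b, hbdef⟩ : ∃ b, b = b0 + C0 := ⟨_, rfl⟩
  have hb : (1 / 2 : ℝ) ^ b ≤ ε / 2 := by
    refine le_trans ?_ hb0.le
    exact pow_le_pow_of_le_one (by norm_num) (by norm_num) (by omega)
  obtain ⟨z0, hz0⟩ : ∃ z0, z0 = C0 + 2 * κ + 1 := ⟨_, rfl⟩
  obtain ⟨k, hk⟩ : ∃ k, k = 32 * (C0 * b) + 2 := ⟨_, rfl⟩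
  obtain ⟨m, hm⟩ : ∃ m, m = k + 2 * κ + 40 := ⟨_, rfl⟩
  obtain ⟨δ, hδ⟩ : ∃ δ : ℝ, δ = 1 / (100 * m) := ⟨_, rfl⟩
  have hm0 : (0 : ℝ) < m := by exact_mod_cast (show 0 < m by omega)
  have hδ0 : 0 < δ := by rw [hδ]; positivity
  obtain ⟨K1, hK1⟩ : ∃ K1 : ℝ, K1 = 2 * C * (z0.factorial : ℝ) ^ 15 * 3 ^ k := ⟨_, rfl⟩
  have hK10 : 0 < K1 := by rw [hK1]; positivity
  have hz0pos : (0 : ℝ) < z0 := by exact_mod_cast (show 0 < z0 by omega)
  obtain ⟨K2, hK2⟩ : ∃ K2 : ℝ, K2 = (c / 2) * ((1 / (z0 : ℝ) ^ 4) ^ z0 * (Real.exp (-(2 * κ)) / 2 ^ (2 * κ))) := ⟨_, rfl⟩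
  have hK20 : 0 < K2 := by rw [hK2]; positivity
  obtain ⟨n1, hn1⟩ := large_rpow (C' / (c / 2)) (7 / 200) (by norm_num)
  obtain ⟨n2, hn2⟩ := large_rpow (K1 / (ε / 2 * K2)) (7 / 200) (by norm_num)
  obtain ⟨n3, hn3⟩ := large_rpow (Cm / (ε * (c / 2))) (7 / 200) (by norm_num)
  obtain ⟨n4, hn4⟩ := large_rpow (1 / (c / 2)) (7 / 200) (by norm_num)
  refine ⟨δ, hδ0, n1 + n2 + n3 + n4, ?_⟩
  intro n M z hno hnbig hM hMo hMs hMn hzn v hv
  have hn : 1 ≤ n := hno.pos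
  have hnr : (1 : ℝ) ≤ n := by exact_mod_cast hn
  have hn0 : (0 : ℝ) < n := by linarith
  have hn1' := hn1 n (by omega)
  have hn2' := hn2 n (by omega)
  have hn3' := hn3 n (by omega)
  have hn4' := hn4 n (by omega)
  obtain ⟨Y, hY⟩ : ∃ Y : ℝ, Y = (n : ℝ) ^ δ := ⟨_, rfl⟩
  rw [← hY] at hMn hzn
  have hY1 : 1 ≤ Y := by rw [hY]; exact Real.one_le_rpow hnr hδ0.le
  have hY0 : 0 < Y := by linarith
  have hYm : ∀ j : ℕ, j ≤ m → Y ^ j ≤ (n : ℝ) ^ (1 / 100 : ℝ) := by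
    intro j hj
    rw [hY, ← Real.rpow_natCast, ← Real.rpow_mul hn0.le]
    apply Real.rpow_le_rpow_of_exponent_le hnr
    rw [hδ, one_div, mul_comm, ← div_eq_mul_inv, div_le_div_iff₀ (by positivity) (by norm_num)]
    have : (j : ℝ) ≤ m := by exact_mod_cast hj
    linarith
  -- key comparison
  have hkey : (n : ℝ) ^ (1 / 100 : ℝ) * (n : ℝ) ^ (19 / 20 : ℝ) * (n : ℝ) ^ (7 / 200 : ℝ) = (n : ℝ) ^ (199 / 200 : ℝ) := by
    rw [← Real.rpow_add hn0, ← Real.rpow_add hn0]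
    norm_num
  have hM0 : (0 : ℝ) < M := by exact_mod_cast hM
  have hR : c / 2 * (n : ℝ) ^ (199 / 200 : ℝ) / Y ^ 4 ≤ ((prc n M v).card : ℝ) := by
    have h1 := hlow n M hno hM hMo hMs v hv
    have h2 : c * (n : ℝ) ^ (199 / 200 : ℝ) / Y ^ 4 ≤ c * (n : ℝ) ^ (199 / 200 : ℝ) / (M : ℝ) ^ 4 := by gcongr
    have h3 : C' * (M : ℝ) ^ 15 * (n : ℝ) ^ (19 / 20 : ℝ) ≤ C' * Y ^ 15 * (n : ℝ) ^ (19 / 20 : ℝ) := by gcongr
    have h4 : C' * Y ^ 15 * (n : ℝ) ^ (19 / 20 : ℝ) ≤ c / 2 * (n : ℝ) ^ (199 / 200 : ℝ) / Y ^ 4 := by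
      rw [le_div_iff₀ (by positivity)]
      rw [div_le_iff₀ (by positivity)] at hn1'
      calc C' * Y ^ 15 * (n : ℝ) ^ (19 / 20 : ℝ) * Y ^ 4 = C' * (Y ^ 19 * (n : ℝ) ^ (19 / 20 : ℝ)) := by ring
        _ ≤ ((n : ℝ) ^ (7 / 200 : ℝ) * (c / 2)) * ((n : ℝ) ^ (1 / 100 : ℝ) * (n : ℝ) ^ (19 / 20 : ℝ)) := by
            gcongr
            exact hYm 19 (by omega)
        _ = c / 2 * ((n : ℝ) ^ (1 / 100 : ℝ) * (n : ℝ) ^ (19 / 20 : ℝ) * (n : ℝ) ^ (7 / 200 : ℝ)) := by ring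
        _ = _ := by rw [hkey]
    have h5 : c * (n : ℝ) ^ (199 / 200 : ℝ) / Y ^ 4 = 2 * (c / 2 * (n : ℝ) ^ (199 / 200 : ℝ) / Y ^ 4) := by ring
    linarith
  have hR0 : (0 : ℝ) ≤ ((prc n M v).card : ℝ) := Nat.cast_nonneg _
  refine ⟨?_, ?_, ?_⟩
  · refine (hmass n M hn hM hMo hMs v hv).trans (le_trans ?_ (mul_le_mul_of_nonneg_left hR hε.le))
    have h3 : Cm * (M : ℝ) ^ 15 * (n : ℝ) ^ (19 / 20 : ℝ) ≤ Cm * Y ^ 15 * (n : ℝ) ^ (19 / 20 : ℝ) := by gcongr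
    refine h3.trans ?_
    rw [← mul_div_assoc, le_div_iff₀ (by positivity)]
    rw [div_le_iff₀ (by positivity)] at hn3'
    calc Cm * Y ^ 15 * (n : ℝ) ^ (19 / 20 : ℝ) * Y ^ 4 = Cm * (Y ^ 19 * (n : ℝ) ^ (19 / 20 : ℝ)) := by ring
      _ ≤ ((n : ℝ) ^ (7 / 200 : ℝ) * (ε * (c / 2))) * ((n : ℝ) ^ (1 / 100 : ℝ) * (n : ℝ) ^ (19 / 20 : ℝ)) := by
          gcongr
          exact hYm 19 (by omega)
      _ = ε * (c / 2 * ((n : ℝ) ^ (1 / 100 : ℝ) * (n : ℝ) ^ (19 / 20 : ℝ) * (n : ℝ) ^ (7 / 200 : ℝ))) := by ring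
      _ = _ := by rw [hkey]
  · refine le_trans ?_ hR
    rw [le_div_iff₀ (by positivity)]
    rw [div_le_iff₀ (by positivity)] at hn4'
    have h9 : (n : ℝ) ^ (9 / 10 : ℝ) ≤ (n : ℝ) ^ (19 / 20 : ℝ) := Real.rpow_le_rpow_of_exponent_le hnr (by norm_num)
    calc (n : ℝ) ^ (9 / 10 : ℝ) * Y ^ 4 ≤ (n : ℝ) ^ (19 / 20 : ℝ) * (n : ℝ) ^ (1 / 100 : ℝ) := by
          gcongr
          exact hYm 4 (by omega)
      _ = 1 * ((n : ℝ) ^ (1 / 100 : ℝ) * (n : ℝ) ^ (19 / 20 : ℝ)) := by ring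
      _ ≤ ((n : ℝ) ^ (7 / 200 : ℝ) * (c / 2)) * ((n : ℝ) ^ (1 / 100 : ℝ) * (n : ℝ) ^ (19 / 20 : ℝ)) := by gcongr
      _ = c / 2 * ((n : ℝ) ^ (1 / 100 : ℝ) * (n : ℝ) ^ (19 / 20 : ℝ) * (n : ℝ) ^ (7 / 200 : ℝ)) := by ring
      _ = _ := by rw [hkey]
  intro B hB
  by_cases hdeg : ∃ l ∈ Pr M z, l ≤ z0 ∧ B l = Gl n l
  · -- an empty set
    obtain ⟨l, hl, hlz, hBl⟩ := hdeg
    have hlp := (mem_Pr.1 hl).2.1
    have hl2 : l ≠ 2 := by
      have := (mem_Pr.1 hl).1.1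
      omega
    have h1 : Vd n M z B = 0 := by
      unfold Vd
      apply prod_eq_zero hl
      rw [hBl, div_self (Gl_pos n l hlp hl2).ne', sub_self]
    have h2 : sift n M v z B = ∅ := by
      unfold sift
      rw [filter_eq_empty_iff]
      intro X hX h3
      apply h3 l hl
      rw [hBl]
      unfold prc at hX
      rw [mem_filter, mem_repsc] at hX
      exact red_mem n l hlp X hX.1.1 hX.2
    rw [h1, h2]
    simp
  push Not at hdeg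
  have hV := Vd_lower κ z0 (by omega) n M z B hB (fun l hl hlz => hdeg l hl hlz)
  have hV' : (1 / (z0 : ℝ) ^ 4) ^ z0 * (Real.exp (-(2 * κ)) / (2 ^ (2 * κ) * Y ^ (2 * κ))) ≤ Vd n M z B := by
    refine le_trans ?_ hV
    rw [← mul_pow]
    gcongr
    linarith
  have hV0 : 0 ≤ Vd n M z B := le_trans (by positivity) hV'
  have hmain : K2 * (n : ℝ) ^ (199 / 200 : ℝ) / Y ^ (4 + 2 * κ) ≤ (prc n M v).card * Vd n M z B := by
    calc K2 * (n : ℝ) ^ (199 / 200 : ℝ) / Y ^ (4 + 2 * κ) = (c / 2 * (n : ℝ) ^ (199 / 200 : ℝ) / Y ^ 4) *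
          ((1 / (z0 : ℝ) ^ 4) ^ z0 * (Real.exp (-(2 * κ)) / (2 ^ (2 * κ) * Y ^ (2 * κ)))) := by
            rw [hK2, pow_add]
            field_simp
      _ ≤ _ := mul_le_mul hR hV' (by positivity) hR0
  have hs := hsieve b (by omega) z0 (by omega) (by omega) n M hn hM hMo hMs v hv z B hB
  rw [← hk] at hs
  have herr : 2 * C * (z0.factorial : ℝ) ^ 15 * (M : ℝ) ^ 11 * ((z : ℝ) + 2) ^ k * (n : ℝ) ^ (19 / 20 : ℝ) ≤
      ε / 2 * ((prc n M v).card * Vd n M z B) := by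
    refine le_trans ?_ (mul_le_mul_of_nonneg_left hmain (by positivity))
    have h1 : 2 * C * (z0.factorial : ℝ) ^ 15 * (M : ℝ) ^ 11 * ((z : ℝ) + 2) ^ k * (n : ℝ) ^ (19 / 20 : ℝ) ≤
        2 * C * (z0.factorial : ℝ) ^ 15 * Y ^ 11 * (3 * Y) ^ k * (n : ℝ) ^ (19 / 20 : ℝ) := by
      gcongr
      linarith
    refine h1.trans ?_
    rw [← mul_div_assoc, le_div_iff₀ (by positivity)]
    rw [div_le_iff₀ (by positivity)] at hn2'
    calc 2 * C * (z0.factorial : ℝ) ^ 15 * Y ^ 11 * (3 * Y) ^ k * (n : ℝ) ^ (19 / 20 : ℝ) * Y ^ (4 + 2 * κ)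
        = K1 * (Y ^ (15 + k + 2 * κ) * (n : ℝ) ^ (19 / 20 : ℝ)) := by rw [hK1, mul_pow, pow_add, pow_add, pow_add]; ring
      _ ≤ ((n : ℝ) ^ (7 / 200 : ℝ) * (ε / 2 * K2)) * ((n : ℝ) ^ (1 / 100 : ℝ) * (n : ℝ) ^ (19 / 20 : ℝ)) := by
          gcongr
          exact hYm _ (by omega)
      _ = ε / 2 * (K2 * ((n : ℝ) ^ (1 / 100 : ℝ) * (n : ℝ) ^ (19 / 20 : ℝ) * (n : ℝ) ^ (7 / 200 : ℝ))) := by ring
      _ = _ := by rw [hkey]
  have h5 : (1 / 2 : ℝ) ^ b * ((prc n M v).card * Vd n M z B) ≤ ε / 2 * ((prc n M v).card * Vd n M z B) :=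
    mul_le_mul_of_nonneg_right hb (mul_nonneg hR0 hV0)
  linarith

end Pool.Agent.Q48.FS
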