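import Pool.Agent.Q48.FS.Main
import Pool.Agent.Y440.LC.Lcm

set_option autoImplicit false

/-!
# Sums of four squares: first moments for excluded residue classes modulo primes `≤ n ^ δ`
-/

namespace Pool.Agent.Q48.FS

open Finset Pool.Agent.W65.FS

/-- **First moment.** If the excluded classes have small total density then they contain a small proportion of the primitive
representations. -/
theorem first_moment (η : ℝ) (hη : 0 < η) : ∃ δ : ℝ, 0 < δ ∧ ∃ n₀ : ℕ, ∀ n : ℕ, Odd n → n₀ ≤ n → ∀ P : Finset ℕ,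
    (∀ r ∈ P, r.Prime ∧ r ≠ 2 ∧ (r : ℝ) ≤ (n : ℝ) ^ δ) → ∀ B : ℕ → Finset (Fin 4 → ℤ), (∀ r ∈ P, B r ⊆ Gl n r) →
    ∀ w : ℕ → ℝ, (∀ r ∈ P, ((B r).card : ℝ) ≤ w r * r ^ 2) → ∑ r ∈ P, w r / r ≤ η / 4 →
    (((preps n).filter (fun X => ∃ r ∈ P, red r X ∈ B r)).card : ℝ) ≤ η * (preps n).card := by
  classical
  obtain ⟨C, hC, hdist⟩ := distribution
  obtain ⟨c, hc, hlow⟩ := preps_lower (1 / 200) (by norm_num)
  obtain ⟨n1, hn1⟩ := large_rpow (C / (η / 2 * c)) (7 / 200) (by norm_num)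
  refine ⟨1 / 1600, by norm_num, n1, ?_⟩
  intro n hno hn1n P hP B hB w hw hsum
  have hn : 1 ≤ n := hno.pos
  have hnr : (1 : ℝ) ≤ n := by exact_mod_cast hn
  have hn0 : (0 : ℝ) < n := by linarith
  have hn1' := hn1 n hn1n
  have hlow' := hlow n hno
  have hone : ∀ r ∈ P, (((preps n).filter (fun X => red r X ∈ B r)).card : ℝ) ≤
      (preps n).card * (2 * (w r / r)) + C * (n : ℝ) ^ (15 / 1600 : ℝ) * (n : ℝ) ^ (19 / 20 : ℝ) := by
    intro r hr
    obtain ⟨hrp, hr2, hrn⟩ := hP r hr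
    have h1 := hdist n 1 hn one_pos odd_one squarefree_one 0 (good_one n) {r}
      (fun l hl => by
        rw [mem_singleton] at hl
        subst hl
        refine ⟨hrp, fun h => hrp.one_lt.ne' (Nat.dvd_one.1 h), hr2, ?_⟩
        exact Finset.card_pos.1 (by exact_mod_cast Gl_pos n l hrp hr2))
      B (fun l hl => by
        rw [mem_singleton] at hl
        subst hl
        exact hB l hr)
    simp only [mem_singleton, forall_eq, prod_singleton, Nat.cast_one, one_pow, mul_one] at h1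
    rw [prc_one] at h1
    have h2 := (abs_le.1 h1).2
    have hr3 : (3 : ℝ) ≤ r := by
      have : 3 ≤ r := by
        have := hrp.two_le
        omega
      exact_mod_cast this
    have h3 : ((B r).card : ℝ) / (Gl n r).card ≤ 2 * (w r / r) := by
      have h4 := count_lower r hrp hr2 n
      have hpos : 0 < (r : ℝ) ^ 3 - r := by nlinarith [mul_pos (show (0:ℝ) < r by linarith) (show (0:ℝ) < r by linarith)]
      have h5 := hw r hr
      have hw0 : 0 ≤ w r := by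
        by_contra hneg
        push Not at hneg
        have h6 : (0 : ℝ) ≤ (B r).card := Nat.cast_nonneg _
        nlinarith [mul_pos (show (0:ℝ) < r by linarith) (show (0:ℝ) < r by linarith)]
      calc ((B r).card : ℝ) / (Gl n r).card ≤ (w r * (r : ℝ) ^ 2) / ((r : ℝ) ^ 3 - r) :=
            div_le_div₀ (by positivity) h5 hpos h4
        _ ≤ 2 * (w r / r) := by
          rw [div_le_iff₀ hpos]
          have h6 : 2 * (w r / r) * ((r : ℝ) ^ 3 - r) = w r * (2 * ((r : ℝ) ^ 2 - 1)) := by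
            field_simp
          rw [h6]
          apply mul_le_mul_of_nonneg_left _ hw0
          nlinarith
    have h4 : ((preps n).card : ℝ) * (((B r).card : ℝ) / (Gl n r).card) ≤ (preps n).card * (2 * (w r / r)) :=
      mul_le_mul_of_nonneg_left h3 (Nat.cast_nonneg _)
    have h5 : C * (r : ℝ) ^ 15 * (n : ℝ) ^ (19 / 20 : ℝ) ≤ C * (n : ℝ) ^ (15 / 1600 : ℝ) * (n : ℝ) ^ (19 / 20 : ℝ) := by
      have h6 : (r : ℝ) ^ 15 ≤ (n : ℝ) ^ (15 / 1600 : ℝ) := by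
        calc (r : ℝ) ^ 15 ≤ ((n : ℝ) ^ (1 / 1600 : ℝ)) ^ 15 := by gcongr
          _ = (n : ℝ) ^ (15 / 1600 : ℝ) := by
            rw [← Real.rpow_natCast, ← Real.rpow_mul hn0.le]
            norm_num
      gcongr
    linarith
  have hcardP : (P.card : ℝ) ≤ (n : ℝ) ^ (1 / 1600 : ℝ) := by
    have h1 : P ⊆ Icc 1 ⌊(n : ℝ) ^ (1 / 1600 : ℝ)⌋₊ := by
      intro r hr
      rw [mem_Icc]
      exact ⟨(hP r hr).1.pos, Nat.le_floor (hP r hr).2.2⟩
    have h2 := card_le_card h1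
    rw [Nat.card_Icc, Nat.add_sub_cancel] at h2
    exact (Nat.cast_le.2 h2).trans (Nat.floor_le (Real.rpow_nonneg hn0.le _))
  have hunion : (preps n).filter (fun X => ∃ r ∈ P, red r X ∈ B r) ⊆
      P.biUnion (fun r => (preps n).filter (fun X => red r X ∈ B r)) := by
    intro X hX
    rw [mem_filter] at hX
    obtain ⟨hX1, r, hr, hX2⟩ := hX
    rw [mem_biUnion]
    exact ⟨r, hr, mem_filter.2 ⟨hX1, hX2⟩⟩
  have h1 : (((preps n).filter (fun X => ∃ r ∈ P, red r X ∈ B r)).card : ℝ) ≤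
      ∑ r ∈ P, (((preps n).filter (fun X => red r X ∈ B r)).card : ℝ) := by
    exact_mod_cast (card_le_card hunion).trans card_biUnion_le
  have h2 := sum_le_sum hone
  rw [sum_add_distrib, ← mul_sum, ← mul_sum, sum_const, nsmul_eq_mul] at h2
  have h3 : (P.card : ℝ) * (C * (n : ℝ) ^ (15 / 1600 : ℝ) * (n : ℝ) ^ (19 / 20 : ℝ)) ≤ η / 2 * (preps n).card := by
    have h4 : (n : ℝ) ^ (1 / 1600 : ℝ) * (n : ℝ) ^ (15 / 1600 : ℝ) * (n : ℝ) ^ (19 / 20 : ℝ) * (n : ℝ) ^ (7 / 200 : ℝ) =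
        (n : ℝ) ^ (199 / 200 : ℝ) := by
      rw [← Real.rpow_add hn0, ← Real.rpow_add hn0, ← Real.rpow_add hn0]
      norm_num
    rw [div_le_iff₀ (by positivity)] at hn1'
    have e : (199 / 200 : ℝ) = 1 - 1 / 200 := by norm_num
    calc (P.card : ℝ) * (C * (n : ℝ) ^ (15 / 1600 : ℝ) * (n : ℝ) ^ (19 / 20 : ℝ))
        ≤ (n : ℝ) ^ (1 / 1600 : ℝ) * (((n : ℝ) ^ (7 / 200 : ℝ) * (η / 2 * c)) * (n : ℝ) ^ (15 / 1600 : ℝ) * (n : ℝ) ^ (19 / 20 : ℝ)) := by
          gcongr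
      _ = η / 2 * (c * ((n : ℝ) ^ (1 / 1600 : ℝ) * (n : ℝ) ^ (15 / 1600 : ℝ) * (n : ℝ) ^ (19 / 20 : ℝ) * (n : ℝ) ^ (7 / 200 : ℝ))) := by ring
      _ ≤ η / 2 * (preps n).card := by
          rw [h4, e]
          gcongr
  have h5 : ((preps n).card : ℝ) * (2 * ∑ r ∈ P, w r / r) ≤ (preps n).card * (2 * (η / 4)) := by
    apply mul_le_mul_of_nonneg_left _ (Nat.cast_nonneg _)
    linarith
  have e5 : ((preps n).card : ℝ) * (2 * (η / 4)) = η / 2 * (preps n).card := by ring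
  linarith

/-- the largest `h` with `h ^ 4 ≤ j` -/
def hh (j : ℕ) : ℕ := Nat.sqrt (Nat.sqrt j)

lemma le_hh {h j : ℕ} : h ≤ hh j ↔ h ^ 4 ≤ j := by
  unfold hh
  rw [Nat.le_sqrt', Nat.le_sqrt']
  have e : (h ^ 2) ^ 2 = h ^ 4 := by ring
  rw [e]

/-- the multipliers `h` with `h ^ 4 ≤ log r / log 2` for which `h r + 1` is a prime -/
def mult (r : ℕ) : Finset ℕ := (Icc 1 (hh (Nat.log 2 r))).filter fun h => (h * r + 1).Prime

lemma mem_mult {r h : ℕ} : h ∈ mult r ↔ (1 ≤ h ∧ h ^ 4 ≤ Nat.log 2 r) ∧ (h * r + 1).Prime := by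
  unfold mult
  rw [mem_filter, mem_Icc, le_hh]

/-- the weights of the primes with multipliers are summable -/
theorem tail_small (η : ℝ) (hη : 0 < η) : ∃ r₀ : ℕ, ∀ P : Finset ℕ, (∀ r ∈ P, r.Prime ∧ r ≠ 2 ∧ r₀ ≤ r) →
    ∑ r ∈ P, (∑ h ∈ mult r, (h : ℝ) ^ 2) / r ≤ η := by
  classical
  obtain ⟨C1, hC1, h1⟩ := Pool.Agent.Erdos456.sieve_count
  obtain ⟨C2, hC2, h2⟩ := Pool.Agent.Y440.LC.sumGG
  have hs : Summable (fun j : ℕ => C1 * C2 * (1 / (j : ℝ) ^ (5 / 4 : ℝ))) :=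
    (Real.summable_one_div_nat_rpow.2 (by norm_num)).mul_left _
  obtain ⟨s, hs⟩ := summable_iff_vanishing_norm.1 hs η hη
  obtain ⟨j0, hj0⟩ : ∃ j0 : ℕ, 1 ≤ j0 ∧ ∀ j ∈ s, j < j0 := by
    refine ⟨s.sup id + 1, by omega, fun j hj => ?_⟩
    have := Finset.le_sup (f := id) hj
    simp only [id] at this
    omega
  refine ⟨2 ^ j0, fun P hP => ?_⟩
  -- split into dyadic blocks
  have hlog : ∀ r ∈ P, j0 ≤ Nat.log 2 r ∧ 2 ^ Nat.log 2 r < r ∧ r ≤ 2 ^ (Nat.log 2 r + 1) := by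
    intro r hr
    obtain ⟨hp, hp2, hr0⟩ := hP r hr
    have h3 := Nat.pow_log_le_self 2 hp.ne_zero
    have h4 := Nat.lt_pow_succ_log_self (b := 2) (by norm_num) r
    refine ⟨(Nat.le_log_iff_pow_le (by norm_num) hp.ne_zero).2 hr0, lt_of_le_of_ne h3 ?_, h4.le⟩
    intro h5
    have hj1 : 1 ≤ Nat.log 2 r := hj0.1.trans ((Nat.le_log_iff_pow_le (by norm_num) hp.ne_zero).2 hr0)
    have h6 : 2 ∣ r := by
      rw [← h5]
      exact dvd_pow_self 2 (by omega)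
    exact hp2 ((Nat.prime_dvd_prime_iff_eq Nat.prime_two hp).1 h6).symm
  obtain ⟨t, ht⟩ : ∃ t : Finset ℕ, t = P.image (Nat.log 2) := ⟨_, rfl⟩
  have hfib : ∑ r ∈ P, (∑ h ∈ mult r, (h : ℝ) ^ 2) / r =
      ∑ j ∈ t, ∑ r ∈ P.filter (fun r => Nat.log 2 r = j), (∑ h ∈ mult r, (h : ℝ) ^ 2) / r := by
    rw [ht]
    exact (sum_fiberwise_of_maps_to (fun r hr => mem_image_of_mem _ hr) _).symm
  rw [hfib]
  have hblock : ∀ j ∈ t, ∑ r ∈ P.filter (fun r => Nat.log 2 r = j), (∑ h ∈ mult r, (h : ℝ) ^ 2) / r ≤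
      C1 * C2 * (1 / (j : ℝ) ^ (5 / 4 : ℝ)) := by
    intro j hj
    rw [ht, mem_image] at hj
    obtain ⟨r', hr', hjr'⟩ := hj
    have hjj0 : j0 ≤ j := by rw [← hjr']; exact (hlog r' hr').1
    have hj1 : 1 ≤ j := hj0.1.trans hjj0
    have hjr : (1 : ℝ) ≤ j := by exact_mod_cast hj1
    have hjpos : (0 : ℝ) < j := by linarith
    have h3 : ∑ r ∈ P.filter (fun r => Nat.log 2 r = j), (∑ h ∈ mult r, (h : ℝ) ^ 2) / r ≤
        ∑ r ∈ P.filter (fun r => Nat.log 2 r = j), ∑ h ∈ mult r, (hh j : ℝ) ^ 2 / 2 ^ j := by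
      apply sum_le_sum
      intro r hr
      rw [mem_filter] at hr
      rw [sum_div]
      apply sum_le_sum
      intro h hhm
      rw [mem_mult, hr.2, ← le_hh] at hhm
      have h4 : (2 : ℝ) ^ j ≤ r := by
        have := (hlog r hr.1).2.1.le
        rw [hr.2] at this
        exact_mod_cast this
      have h5 : (h : ℝ) ≤ hh j := by exact_mod_cast hhm.1.2
      gcongr
    refine h3.trans ?_
    have h4 : ∑ r ∈ P.filter (fun r => Nat.log 2 r = j), ∑ _h ∈ mult r, (hh j : ℝ) ^ 2 / 2 ^ j ≤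
        ∑ h ∈ Icc 1 (hh j), (((Ioc (2 ^ j) (2 ^ (j + 1))).filter (fun Q => Q.Prime ∧ (h * Q + 1).Prime)).card : ℝ) *
          ((hh j : ℝ) ^ 2 / 2 ^ j) := by
      have h5 : ∑ r ∈ P.filter (fun r => Nat.log 2 r = j), ∑ _h ∈ mult r, (hh j : ℝ) ^ 2 / 2 ^ j =
          ∑ r ∈ P.filter (fun r => Nat.log 2 r = j), ∑ h ∈ Icc 1 (hh j), (if (h * r + 1).Prime then (hh j : ℝ) ^ 2 / 2 ^ j else 0) := by
        apply sum_congr rfl
        intro r hr
        rw [mem_filter] at hr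
        unfold mult
        rw [hr.2, sum_filter]
      rw [h5, sum_comm]
      apply sum_le_sum
      intro h _
      rw [← sum_filter, sum_const, nsmul_eq_mul]
      apply mul_le_mul_of_nonneg_right _ (by positivity)
      rw [Nat.cast_le]
      apply card_le_card
      intro r hr
      rw [mem_filter, mem_filter] at hr
      rw [mem_filter, mem_Ioc]
      have h6 := hlog r hr.1.1
      rw [hr.1.2] at h6
      exact ⟨h6.2, (hP r hr.1.1).1, hr.2⟩
    refine h4.trans ?_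
    have h5 : ∑ h ∈ Icc 1 (hh j), (((Ioc (2 ^ j) (2 ^ (j + 1))).filter (fun Q => Q.Prime ∧ (h * Q + 1).Prime)).card : ℝ) *
          ((hh j : ℝ) ^ 2 / 2 ^ j) ≤ ∑ h ∈ Icc 1 (hh j), (C1 * ((hh j : ℝ) ^ 2 / (j : ℝ) ^ 2)) * Pool.Agent.Erdos456.GG h ^ 2 := by
      apply sum_le_sum
      intro h hhm
      rw [mem_Icc] at hhm
      have h6 := h1 h j hhm.1 hj1
      calc (((Ioc (2 ^ j) (2 ^ (j + 1))).filter (fun Q => Q.Prime ∧ (h * Q + 1).Prime)).card : ℝ) * ((hh j : ℝ) ^ 2 / 2 ^ j)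
          ≤ (C1 * Pool.Agent.Erdos456.GG h ^ 2 * 2 ^ j / (j : ℝ) ^ 2) * ((hh j : ℝ) ^ 2 / 2 ^ j) :=
            mul_le_mul_of_nonneg_right h6 (by positivity)
        _ = _ := by field_simp
    refine h5.trans ?_
    rw [← mul_sum]
    have h6 : C1 * ((hh j : ℝ) ^ 2 / (j : ℝ) ^ 2) * ∑ h ∈ Icc 1 (hh j), Pool.Agent.Erdos456.GG h ^ 2 ≤
        C1 * ((hh j : ℝ) ^ 2 / (j : ℝ) ^ 2) * (C2 * hh j) := mul_le_mul_of_nonneg_left (h2 _) (by positivity)
    refine h6.trans ?_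
    have h7 : (hh j : ℝ) ^ 3 ≤ (j : ℝ) ^ (3 / 4 : ℝ) := by
      have h8 : (hh j : ℝ) ^ 4 ≤ j := by exact_mod_cast (le_hh.1 (le_refl (hh j)))
      calc (hh j : ℝ) ^ 3 = ((hh j : ℝ) ^ 4) ^ (3 / 4 : ℝ) := by
            rw [← Real.rpow_natCast, ← Real.rpow_natCast, ← Real.rpow_mul (Nat.cast_nonneg _)]
            norm_num
        _ ≤ _ := Real.rpow_le_rpow (by positivity) h8 (by norm_num)
    have h9 : (j : ℝ) ^ (3 / 4 : ℝ) / (j : ℝ) ^ 2 = 1 / (j : ℝ) ^ (5 / 4 : ℝ) := by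
      rw [div_eq_div_iff (by positivity) (by positivity), ← Real.rpow_add hjpos, one_mul, ← Real.rpow_natCast]
      norm_num
    calc C1 * ((hh j : ℝ) ^ 2 / (j : ℝ) ^ 2) * (C2 * hh j) = C1 * C2 * ((hh j : ℝ) ^ 3 / (j : ℝ) ^ 2) := by ring
      _ ≤ C1 * C2 * ((j : ℝ) ^ (3 / 4 : ℝ) / (j : ℝ) ^ 2) := by gcongr
      _ = _ := by rw [h9]
  refine (sum_le_sum hblock).trans ?_
  have hdisj : Disjoint t s := by
    rw [disjoint_left]
    intro j hj hjs
    rw [ht, mem_image] at hj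
    obtain ⟨r', hr', hjr'⟩ := hj
    have h3 := (hlog r' hr').1
    have h4 := hj0.2 j hjs
    omega
  have h3 := hs t hdisj
  exact (le_abs_self _).trans h3.le

/-- a set of residues in which any two distinct elements have the same sum has at most two elements -/
lemma card_le_two_of_sum (r : ℕ) (hr : 0 < r) (m : ℤ) (S : Finset ℤ) (hS : ∀ t ∈ S, 0 ≤ t ∧ t < r)
    (h : ∀ t ∈ S, ∀ t' ∈ S, t ≠ t' → (r : ℤ) ∣ t + t' - m) : S.card ≤ 2 := by
  classical
  rcases S.eq_empty_or_nonempty with h0 | ⟨t, ht⟩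
  · rw [h0]; simp
  · have h1 : S ⊆ {t, (m - t) % r} := by
      intro t' ht'
      rw [mem_insert, mem_singleton]
      by_cases heq : t' = t
      · exact Or.inl heq
      · right
        have h2 := h t ht t' ht' (fun e => heq e.symm)
        have h3 := hS t' ht'
        have h4 : t' % r = (m - t) % r := by
          have h5 : (r : ℤ) ∣ t' - (m - t) := by
            have e : t' - (m - t) = t + t' - m := by ring
            rw [e]
            exact h2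
          exact (Int.ModEq.symm ((Int.modEq_iff_dvd).2 h5))
        rw [← h4]
        exact (Int.emod_eq_of_lt h3.1 h3.2).symm
    exact (card_le_card h1).trans card_le_two

end Pool.Agent.Q48.FS
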