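import Pool.Agent.W65.FS.Final

set_option autoImplicit false

/-!
# Sums of four squares: the fundamental lemma of the sieve, uniformly in residue classes

For primitive representations of an odd integer `n` as a sum of four squares in a residue class modulo `M`, with a set `B l` of
excluded residue classes modulo each odd prime `l ≤ z` not dividing `M`, `|B l| ≤ κ l ^ 2`, the number of representations which
avoid all `B l` is the expected one up to a factor `1 + O(ε)`, for all `M, z ≤ n ^ δ`. Everything may depend on `n`.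
The distribution in residue classes is `Pool.Agent.W65.FS.distribution` of the starting files.
-/

namespace Pool.Agent.Q48.FS

open Finset Pool.Agent.W65.FS

/-- the odd primes `≤ z` which do not divide `M` -/
def Pr (M z : ℕ) : Finset ℕ := (Icc 3 z).filter fun l => l.Prime ∧ ¬ l ∣ M

lemma mem_Pr {M z l : ℕ} : l ∈ Pr M z ↔ (3 ≤ l ∧ l ≤ z) ∧ l.Prime ∧ ¬ l ∣ M := by
  unfold Pr
  rw [mem_filter, mem_Icc]

/-- the expected proportion -/
noncomputable def Vd (n M z : ℕ) (B : ℕ → Finset (Fin 4 → ℤ)) : ℝ :=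
  ∏ l ∈ Pr M z, (1 - ((B l).card : ℝ) / (Gl n l).card)

open Classical in
/-- the primitive representations in the class `v` modulo `M` which avoid all `B l`, `l ≤ z` -/
noncomputable def sift (n M : ℕ) (v : Fin 4 → ℤ) (z : ℕ) (B : ℕ → Finset (Fin 4 → ℤ)) : Finset (Fin 4 → ℤ) :=
  (prc n M v).filter fun X => ∀ l ∈ Pr M z, red l X ∉ B l

lemma Gl_pos (n l : ℕ) (hl : l.Prime) (hl2 : l ≠ 2) : 0 < ((Gl n l).card : ℝ) := by
  have h1 := count_lower l hl hl2 n
  have hl3 : (3 : ℝ) ≤ l := by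
    have : 3 ≤ l := by
      have := hl.two_le
      omega
    exact_mod_cast this
  have hpos : 0 < (l : ℝ) ^ 3 - l := by nlinarith [mul_pos (show (0:ℝ) < l by linarith) (show (0:ℝ) < l by linarith)]
  linarith

lemma gg_bound' (κ : ℕ) (n l : ℕ) (hl : l.Prime) (hl2 : l ≠ 2) (B : Finset (Fin 4 → ℤ)) (h : B.card ≤ κ * l ^ 2) :
    (B.card : ℝ) / (Gl n l).card ≤ κ / ((l : ℝ) - 1) := by
  have hl3 : (3 : ℝ) ≤ l := by
    have : 3 ≤ l := by
      have := hl.two_le
      omega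
    exact_mod_cast this
  have h1 := count_lower l hl hl2 n
  have hpos : 0 < (l : ℝ) ^ 3 - l := by nlinarith [mul_pos (show (0:ℝ) < l by linarith) (show (0:ℝ) < l by linarith)]
  have h2 : (B.card : ℝ) ≤ κ * (l : ℝ) ^ 2 := by exact_mod_cast h
  have hκ : (0 : ℝ) ≤ κ := by positivity
  calc (B.card : ℝ) / (Gl n l).card ≤ (κ * (l : ℝ) ^ 2) / ((l : ℝ) ^ 3 - l) :=
        div_le_div₀ (by positivity) h2 hpos h1
    _ ≤ κ / ((l : ℝ) - 1) := by
      rw [div_le_div_iff₀ hpos (by linarith)]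
      have : (l : ℝ) ^ 2 * (l - 1) ≤ (l : ℝ) ^ 3 - l := by nlinarith
      calc κ * (l : ℝ) ^ 2 * (l - 1) = κ * ((l : ℝ) ^ 2 * (l - 1)) := by ring
        _ ≤ κ * ((l : ℝ) ^ 3 - l) := by gcongr

lemma exists_J (z : ℕ) : ∃ J : ℕ, z ≤ 2 ^ 2 ^ J ∧ 2 ^ 2 ^ J ≤ (z + 2) ^ 2 := by
  classical
  have hex : ∃ J : ℕ, z ≤ 2 ^ 2 ^ J := ⟨z, (Nat.lt_two_pow_self).le.trans (Nat.lt_two_pow_self).le⟩
  refine ⟨Nat.find hex, Nat.find_spec hex, ?_⟩
  rcases Nat.eq_zero_or_pos (Nat.find hex) with h | h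
  · rw [h]
    have : 2 ^ 2 ^ 0 = 2 := by norm_num
    rw [this]
    exact (show 2 ≤ 2 ^ 2 by norm_num).trans (Nat.pow_le_pow_left (by omega) 2)
  · have h1 := Nat.find_min hex (Nat.sub_one_lt h.ne')
    obtain ⟨j, hj⟩ : ∃ j, Nat.find hex = j + 1 := ⟨Nat.find hex - 1, by omega⟩
    rw [hj] at h1 ⊢
    simp only [Nat.add_sub_cancel] at h1
    push Not at h1
    calc 2 ^ 2 ^ (j + 1) = (2 ^ 2 ^ j) ^ 2 := by rw [← pow_mul, pow_succ]
      _ ≤ (z + 2) ^ 2 := Nat.pow_le_pow_left (by omega) 2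

/-- the number of primitive representations in a class -/
lemma mass : ∃ C : ℝ, 0 < C ∧ ∀ (n M : ℕ), 1 ≤ n → 0 < M → Odd M → Squarefree M → ∀ v : Fin 4 → ℤ, Good n M v →
    |((prc n M v).card : ℝ) - (preps n).card * ∏ l ∈ M.primeFactors, (1 / ((Gl n l).card : ℝ))| ≤
      C * (M : ℝ) ^ 15 * (n : ℝ) ^ (19 / 20 : ℝ) := by
  classical
  obtain ⟨C, hC, hdist⟩ := distribution
  refine ⟨C, hC, fun n M hn hM hMo hMs v hv => ?_⟩
  have hT : ∀ l ∈ M.primeFactors, l.Prime ∧ ¬ l ∣ 1 ∧ l ≠ 2 := by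
    intro l hl
    have h1 := Nat.prime_of_mem_primeFactors hl
    refine ⟨h1, fun h => h1.one_lt.ne' (Nat.dvd_one.1 h), ?_⟩
    rintro rfl
    have := Nat.dvd_of_mem_primeFactors hl
    exact (Nat.not_even_iff_odd.2 hMo) (even_iff_two_dvd.2 this)
  have hred : ∀ l ∈ M.primeFactors, red l v ∈ Gl n l := by
    intro l hl
    have hlp := (hT l hl).1
    have hlM := Nat.dvd_of_mem_primeFactors hl
    have hl0 : (0 : ℤ) < l := by exact_mod_cast hlp.pos
    rw [mem_Gl]
    refine ⟨fun i => ⟨Int.emod_nonneg _ hl0.ne', Int.emod_lt_of_pos _ hl0⟩, ?_, ?_⟩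
    · have h1 : (∑ i, red l v i ^ 2) - (n : ℤ) = ((∑ i, v i ^ 2) - n) - ∑ i, (v i - red l v i) * (v i + red l v i) := by
        simp only [Fin.sum_univ_four]
        ring
      rw [h1]
      exact dvd_sub ((Int.natCast_dvd_natCast.2 hlM).trans hv.1) (Finset.dvd_sum fun i _ => (red_dvd l v i).mul_right _)
    · obtain ⟨i, hi⟩ := hv.2 l hlp hlM
      refine ⟨i, fun h => hi ?_⟩
      have := dvd_add (red_dvd l v i) h
      simpa using this
  have h1 := hdist n 1 hn one_pos odd_one squarefree_one 0 (good_one n) M.primeFactors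
    (fun l hl => ⟨(hT l hl).1, (hT l hl).2.1, (hT l hl).2.2, ⟨red l v, hred l hl⟩⟩)
    (fun l => if l ∈ M.primeFactors then {red l v} else ∅)
    (fun l hl => by
      rw [if_pos hl]
      exact Finset.singleton_subset_iff.2 (hred l hl))
  have h2 : (prc n 1 0).filter (fun X => ∀ l ∈ M.primeFactors, red l X ∈
      (fun l => if l ∈ M.primeFactors then ({red l v} : Finset (Fin 4 → ℤ)) else ∅) l) = prc n M v := by
    rw [prc_one]
    ext X
    unfold preps prc
    rw [mem_filter, mem_filter, mem_filter, mem_reps, mem_repsc]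
    constructor
    · rintro ⟨⟨h3, h4⟩, h5⟩
      refine ⟨⟨h3, fun i => ?_⟩, h4⟩
      rw [← Nat.prod_primeFactors_of_squarefree hMs]
      have h6 : (∏ l ∈ M.primeFactors, l) ∣ (X i - v i).natAbs := by
        refine Finset.prod_primes_dvd _ (fun l hl => (hT l hl).1.prime) (fun l hl => Int.natCast_dvd.1 ?_)
        have h7 := h5 l hl
        simp only [if_pos hl, mem_singleton] at h7
        have h8 := red_dvd l X i
        rw [h7] at h8
        have h9 := dvd_sub h8 (red_dvd l v i)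
        simpa using h9
      exact Int.natCast_dvd.2 h6
    · rintro ⟨⟨h3, h4⟩, h5⟩
      refine ⟨⟨h3, h5⟩, fun l hl => ?_⟩
      simp only [if_pos hl, mem_singleton]
      funext i
      unfold red
      have h7 : (l : ℤ) ∣ X i - v i := (Int.natCast_dvd_natCast.2 (Nat.dvd_of_mem_primeFactors hl)).trans (h4 i)
      exact (Int.ModEq.symm ((Int.modEq_iff_dvd).2 h7))
  rw [h2, prc_one] at h1
  have h3 : ∏ l ∈ M.primeFactors, ((((if l ∈ M.primeFactors then ({red l v} : Finset (Fin 4 → ℤ)) else ∅).card : ℕ) : ℝ) /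
      (Gl n l).card) = ∏ l ∈ M.primeFactors, (1 / ((Gl n l).card : ℝ)) := by
    apply prod_congr rfl
    intro l hl
    rw [if_pos hl, card_singleton]
    simp
  rw [h3, Nat.prod_primeFactors_of_squarefree hMs] at h1
  simpa using h1

/-- a lower bound for the number of primitive representations in a class -/
lemma mass_lower : ∃ c C : ℝ, 0 < c ∧ 0 < C ∧ ∀ (n M : ℕ), Odd n → 0 < M → Odd M → Squarefree M → ∀ v : Fin 4 → ℤ, Good n M v →
    c * (n : ℝ) ^ (199 / 200 : ℝ) / (M : ℝ) ^ 4 - C * (M : ℝ) ^ 15 * (n : ℝ) ^ (19 / 20 : ℝ) ≤ ((prc n M v).card : ℝ) := by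
  obtain ⟨C, hC, h⟩ := mass
  obtain ⟨c, hc, hlow⟩ := preps_lower (1 / 200) (by norm_num)
  refine ⟨c, C, hc, hC, fun n M hn hM hMo hMs v hv => ?_⟩
  have h1 := (abs_le.1 (h n M hn.pos hM hMo hMs v hv)).1
  have h2 := hlow n hn
  have h3 : 1 / (M : ℝ) ^ 4 ≤ ∏ l ∈ M.primeFactors, (1 / ((Gl n l).card : ℝ)) := by
    have h4 : (M : ℝ) ^ 4 = ∏ l ∈ M.primeFactors, ((l : ℝ) ^ 4) := by
      rw [prod_pow, ← Nat.cast_prod, Nat.prod_primeFactors_of_squarefree hMs]
    rw [h4, one_div, ← prod_inv_distrib]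
    apply prod_le_prod
    · intro l _; positivity
    · intro l hl
      rw [one_div]
      have h5 := Nat.prime_of_mem_primeFactors hl
      refine inv_anti₀ (Gl_pos n l h5 ?_) (by exact_mod_cast card_Gl_le n l)
      rintro rfl
      exact (Nat.not_even_iff_odd.2 hMo) (even_iff_two_dvd.2 (Nat.dvd_of_mem_primeFactors hl))
  have h4 : c * (n : ℝ) ^ (199 / 200 : ℝ) / (M : ℝ) ^ 4 ≤
      (preps n).card * ∏ l ∈ M.primeFactors, (1 / ((Gl n l).card : ℝ)) := by
    calc c * (n : ℝ) ^ (199 / 200 : ℝ) / (M : ℝ) ^ 4 = (c * (n : ℝ) ^ (199 / 200 : ℝ)) * (1 / (M : ℝ) ^ 4) := by ring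
      _ ≤ _ := by
        refine mul_le_mul ?_ h3 (by positivity) (by positivity)
        have e : (199 / 200 : ℝ) = 1 - 1 / 200 := by norm_num
        rw [e]
        exact h2
  linarith

end Pool.Agent.Q48.FS
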