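import Pool.Agent.Q48.FS.Exp

set_option autoImplicit false

/-!
# Sums of four squares and powers of two modulo primes `q` for which `q - 1` has a very large prime factor
-/

namespace Pool.Agent.Q48.FS

open Finset Pool.Agent.W65.FS

/-- the order of `2` modulo `q` -/
noncomputable def od (q : ℕ) : ℕ := orderOf (2 : ZMod q)

lemma two_ne (q : ℕ) [Fact q.Prime] (h : 3 ≤ q) : (2 : ZMod q) ≠ 0 := by
  intro h1
  have h2 : ((2 : ℕ) : ZMod q) = 0 := by exact_mod_cast h1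
  have h3 := (ZMod.natCast_eq_zero_iff 2 q).1 h2
  have := Nat.le_of_dvd (by norm_num) h3
  omega

lemma od_dvd (q : ℕ) (hq : q.Prime) (h : 3 ≤ q) : od q ∣ q - 1 := by
  have : Fact q.Prime := ⟨hq⟩
  exact orderOf_dvd_of_pow_eq_one (ZMod.pow_card_sub_one_eq_one (two_ne q h))

lemma od_pos (q : ℕ) (hq : q.Prime) (h : 3 ≤ q) : 0 < od q := by
  have h1 := od_dvd q hq h
  exact Nat.pos_of_dvd_of_pos h1 (by omega)

/-- the large prime factor of `q - 1` divides the order -/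
lemma dvd_od (r h : ℕ) (hr : r.Prime) (hr2 : r ≠ 2) (hh : h ∈ mult r) : r ∣ od (h * r + 1) ∧ od (h * r + 1) ≤ h * r := by
  rw [mem_mult] at hh
  obtain ⟨⟨h1, h4⟩, hq⟩ := hh
  have hr3 : 3 ≤ r := by
    have := hr.two_le
    omega
  have hrq : r ≤ h * r := Nat.le_mul_of_pos_left r h1
  have hq3 : 3 ≤ h * r + 1 := by omega
  have hod := od_dvd (h * r + 1) hq hq3
  rw [Nat.add_sub_cancel] at hod
  refine ⟨?_, Nat.le_of_dvd (by positivity) hod⟩
  by_contra hnd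
  have hcop : Nat.Coprime (od (h * r + 1)) r := ((Nat.Prime.coprime_iff_not_dvd hr).2 hnd).symm
  have hoh : od (h * r + 1) ∣ h := hcop.dvd_of_dvd_mul_right hod
  have : Fact (h * r + 1).Prime := ⟨hq⟩
  have h2 : (2 : ZMod (h * r + 1)) ^ h = 1 := orderOf_dvd_iff_pow_eq_one.1 hoh
  have h5 : (((2 ^ h - 1 : ℕ)) : ZMod (h * r + 1)) = 0 := by
    rw [Nat.cast_sub Nat.one_le_two_pow]
    push_cast
    rw [h2, sub_self]
  have h6 := (ZMod.natCast_eq_zero_iff _ _).1 h5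
  have h7 : 2 ≤ 2 ^ h := by
    calc 2 = 2 ^ 1 := rfl
      _ ≤ 2 ^ h := Nat.pow_le_pow_right (by norm_num) h1
  have h8 := Nat.le_of_dvd (by omega) h6
  have h9 : 2 ^ h ≤ r := by
    calc 2 ^ h ≤ 2 ^ (Nat.log 2 r) := Nat.pow_le_pow_right (by norm_num) ((Nat.le_self_pow (by norm_num) h).trans h4)
      _ ≤ r := Nat.pow_log_le_self 2 hr.ne_zero
  omega

lemma dvd_iff (q : ℕ) (m : ℕ) : q ∣ m ↔ ((m : ℕ) : ZMod q) = 0 := (ZMod.natCast_eq_zero_iff m q).symm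

lemma mod_cast_mod (A o r : ℕ) (h : r ∣ o) : (((A % o : ℕ) : ℤ)) % r = (A : ℤ) % r := by
  rw [← Int.natCast_mod, ← Int.natCast_mod, Nat.mod_mod_of_dvd A h]

lemma pow_inj_lt (q : ℕ) (A B : ℕ) (hA : A < od q) (hB : B < od q) (h : (2 : ZMod q) ^ A = 2 ^ B) : A = B :=
  pow_injOn_Iio_orderOf (Set.mem_Iio.2 hA) (Set.mem_Iio.2 hB) h

open Classical in
/-- the residues modulo `r` of the exponents `A, B` with `q ∣ 2 ^ A + 2 ^ B + 1` -/
noncomputable def E2 (q r : ℕ) : Finset (ℤ × ℤ) :=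
  ((range (od q) ×ˢ range (od q)).filter (fun p => q ∣ 2 ^ p.1 + 2 ^ p.2 + 1)).image (fun p => ((p.1 : ℤ) % r, (p.2 : ℤ) % r))

lemma card_E2 (q r : ℕ) : (E2 q r).card ≤ od q := by
  classical
  unfold E2
  refine card_image_le.trans ?_
  refine (card_le_card_of_injOn (t := range (od q)) (fun p => p.1) (fun p hp => ?_) (fun p hp p' hp' h => ?_)).trans
    (by rw [card_range])
  · rw [mem_coe, mem_filter, mem_product] at hp
    exact hp.1.1
  · rw [mem_coe, mem_filter, mem_product, mem_range, mem_range, dvd_iff] at hp hp'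
    simp only at h
    push_cast at hp hp'
    have h1 : (2 : ZMod q) ^ p.2 = 2 ^ p'.2 := by
      have e1 := hp.2
      have e2 := hp'.2
      rw [h] at e1
      linear_combination e1 - e2
    exact Prod.ext h (pow_inj_lt q _ _ hp.1.2 hp'.1.2 h1)

lemma mem_E2 (q r : ℕ) (hq : q.Prime) (hq3 : 3 ≤ q) (hr : r ∣ od q) (A B : ℕ) (h : q ∣ 2 ^ A + 2 ^ B + 1) :
    ((A : ℤ) % r, (B : ℤ) % r) ∈ E2 q r := by
  classical
  have ho := od_pos q hq hq3
  unfold E2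
  rw [mem_image]
  refine ⟨(A % od q, B % od q), ?_, ?_⟩
  · rw [mem_filter, mem_product, mem_range, mem_range]
    refine ⟨⟨Nat.mod_lt _ ho, Nat.mod_lt _ ho⟩, ?_⟩
    rw [dvd_iff] at h ⊢
    push_cast at h ⊢
    unfold od
    rw [pow_mod_orderOf, pow_mod_orderOf]
    exact h
  · simp only
    rw [mod_cast_mod A _ r hr, mod_cast_mod B _ r hr]

open Classical in
/-- the residues modulo `r` of the exponents with `q ∣ 2 ^ A + 2 ^ B + 2 ^ C + 1` -/
noncomputable def E3 (q r : ℕ) : Finset (ℤ × ℤ × ℤ) :=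
  ((range (od q) ×ˢ range (od q) ×ˢ range (od q)).filter (fun p => q ∣ 2 ^ p.1 + 2 ^ p.2.1 + 2 ^ p.2.2 + 1)).image
    (fun p => ((p.1 : ℤ) % r, (p.2.1 : ℤ) % r, (p.2.2 : ℤ) % r))

lemma card_E3 (q r : ℕ) : (E3 q r).card ≤ od q * od q := by
  classical
  unfold E3
  refine card_image_le.trans ?_
  refine (card_le_card_of_injOn (t := range (od q) ×ˢ range (od q)) (fun p => (p.1, p.2.1)) (fun p hp => ?_)
    (fun p hp p' hp' h => ?_)).trans (by rw [card_product, card_range])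
  · rw [mem_coe, mem_filter, mem_product, mem_product] at hp
    rw [mem_coe, mem_product]
    exact ⟨hp.1.1, hp.1.2.1⟩
  · rw [mem_coe, mem_filter, mem_product, mem_product, mem_range, mem_range, mem_range, dvd_iff] at hp hp'
    simp only [Prod.mk.injEq] at h
    push_cast at hp hp'
    have h1 : (2 : ZMod q) ^ p.2.2 = 2 ^ p'.2.2 := by
      have e1 := hp.2
      have e2 := hp'.2
      rw [h.1, h.2] at e1
      linear_combination e1 - e2
    exact Prod.ext h.1 (Prod.ext h.2 (pow_inj_lt q _ _ hp.1.2.2 hp'.1.2.2 h1))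

lemma mem_E3 (q r : ℕ) (hq : q.Prime) (hq3 : 3 ≤ q) (hr : r ∣ od q) (A B C : ℕ) (h : q ∣ 2 ^ A + 2 ^ B + 2 ^ C + 1) :
    ((A : ℤ) % r, (B : ℤ) % r, (C : ℤ) % r) ∈ E3 q r := by
  classical
  have ho := od_pos q hq hq3
  unfold E3
  rw [mem_image]
  refine ⟨(A % od q, B % od q, C % od q), ?_, ?_⟩
  · rw [mem_filter, mem_product, mem_product, mem_range, mem_range, mem_range]
    refine ⟨⟨Nat.mod_lt _ ho, Nat.mod_lt _ ho, Nat.mod_lt _ ho⟩, ?_⟩
    rw [dvd_iff] at h ⊢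
    push_cast at h ⊢
    unfold od
    rw [pow_mod_orderOf, pow_mod_orderOf, pow_mod_orderOf]
    exact h
  · simp only
    rw [mod_cast_mod A _ r hr, mod_cast_mod B _ r hr, mod_cast_mod C _ r hr]

/-- the sign vectors -/
def signs : Finset (Fin 4 → ℤ) := Fintype.piFinset fun _ => {1, -1}

lemma card_signs : signs.card = 16 := by
  unfold signs
  rw [Fintype.card_piFinset]
  simp

lemma mem_signs {σ : Fin 4 → ℤ} (h : σ ∈ signs) (i : Fin 4) : σ i = 1 ∨ σ i = -1 := by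
  unfold signs at h
  have := Fintype.mem_piFinset.1 h i
  rw [mem_insert, mem_singleton] at this
  exact this

lemma sign_sq {σ : Fin 4 → ℤ} (h : σ ∈ signs) (i : Fin 4) : σ i * σ i = 1 := by
  rcases mem_signs h i with h1 | h1 <;> rw [h1] <;> norm_num

lemma exists_signs (X : Fin 4 → ℤ) : ∃ σ ∈ signs, ∀ i, ((X i).natAbs : ℤ) = σ i * X i := by
  refine ⟨fun i => if 0 ≤ X i then 1 else -1, ?_, fun i => ?_⟩
  · unfold signs
    rw [Fintype.mem_piFinset]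
    intro i
    rw [mem_insert, mem_singleton]
    split_ifs
    · exact Or.inl rfl
    · exact Or.inr rfl
  · simp only
    split_ifs with h
    · rw [Int.natAbs_of_nonneg h, one_mul]
    · push Not at h
      rw [Int.ofNat_natAbs_of_nonpos h.le]
      ring

lemma eq_of_dvd {r : ℕ} {a b : ℤ} (ha : 0 ≤ a ∧ a < r) (hb : 0 ≤ b ∧ b < r) (h : (r : ℤ) ∣ a - b) : a = b := by
  have h1 : a % r = b % r := (Int.ModEq.symm ((Int.modEq_iff_dvd).2 h))
  rw [Int.emod_eq_of_lt ha.1 ha.2, Int.emod_eq_of_lt hb.1 hb.2] at h1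
  exact h1

lemma dvd_of_emod_eq {r : ℕ} {a b : ℤ} (h : a % r = b % r) : (r : ℤ) ∣ a - b := (Int.modEq_iff_dvd).1 (Int.ModEq.symm h)

lemma dvd_cancel_sign {r : ℕ} {s a b : ℤ} (hs : s * s = 1) (h : (r : ℤ) ∣ s * a - s * b) : (r : ℤ) ∣ a - b := by
  have h1 : a - b = s * (s * a - s * b) := by
    linear_combination (-(a - b)) * hs
  rw [h1]
  exact h.mul_left _

lemma prime_cancel_two {r : ℕ} (hr : r.Prime) (hr2 : r ≠ 2) {a b : ℤ} (h : (r : ℤ) ∣ 2 * (a * b)) : (r : ℤ) ∣ a ∨ (r : ℤ) ∣ b := by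
  have hp := Nat.prime_iff_prime_int.1 hr
  rcases hp.dvd_or_dvd h with h1 | h1
  · exfalso
    have h2 : r ∣ 2 := by exact_mod_cast h1
    exact hr2 ((Nat.prime_dvd_prime_iff_eq hr Nat.prime_two).1 h2)
  · exact hp.dvd_or_dvd h1

open Classical in
/-- solutions modulo `r` with prescribed signed pair sums -/
lemma pair_fiber (n r : ℕ) (hr : r.Prime) (hr2 : r ≠ 2) (σ : Fin 4 → ℤ) (hσ : σ ∈ signs) (E : Finset (ℤ × ℤ)) :
    ((Gl n r).filter (fun c => ((σ 0 * c 0 + σ 1 * c 1) % r, (σ 2 * c 2 + σ 3 * c 3) % r) ∈ E)).card ≤ 2 * (E.card * r) := by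
  have hr0 := hr.pos
  obtain ⟨S, hS⟩ : ∃ S, S = (Gl n r).filter (fun c => ((σ 0 * c 0 + σ 1 * c 1) % r, (σ 2 * c 2 + σ 3 * c 3) % r) ∈ E) := ⟨_, rfl⟩
  rw [← hS]
  have hSm : ∀ c ∈ S, (∀ i, 0 ≤ c i ∧ c i < r) ∧ (r : ℤ) ∣ (∑ i, c i ^ 2) - n := by
    intro c hc
    rw [hS, mem_filter, mem_Gl] at hc
    exact ⟨hc.1.1, hc.1.2.1⟩
  refine (card_le_mul_card_image (f := fun c : Fin 4 → ℤ => (((σ 0 * c 0 + σ 1 * c 1) % r, (σ 2 * c 2 + σ 3 * c 3) % r), c 0))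
    S 2 ?_).trans (Nat.mul_le_mul_left 2 ?_)
  · intro a _
    obtain ⟨F, hF⟩ : ∃ F, F = S.filter (fun c : Fin 4 → ℤ => (((σ 0 * c 0 + σ 1 * c 1) % r, (σ 2 * c 2 + σ 3 * c 3) % r), c 0) = a) :=
      ⟨_, rfl⟩
    rw [← hF]
    have hFm : ∀ c ∈ F, ∀ c' ∈ F, c 0 = c' 0 ∧ c 1 = c' 1 ∧ (r : ℤ) ∣ (σ 2 * c 2 + σ 3 * c 3) - (σ 2 * c' 2 + σ 3 * c' 3) := by
      intro c hc c' hc'
      rw [hF, mem_filter] at hc hc'
      have h1 := hc.2.trans hc'.2.symm
      simp only [Prod.mk.injEq] at h1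
      have hb := (hSm c hc.1).1
      have hb' := (hSm c' hc'.1).1
      refine ⟨h1.2, ?_, dvd_of_emod_eq h1.1.2⟩
      have h2 := dvd_of_emod_eq h1.1.1
      rw [h1.2] at h2
      have h3 : σ 0 * c' 0 + σ 1 * c 1 - (σ 0 * c' 0 + σ 1 * c' 1) = σ 1 * c 1 - σ 1 * c' 1 := by ring
      rw [h3] at h2
      exact eq_of_dvd (hb 1) (hb' 1) (dvd_cancel_sign (sign_sq hσ 1) h2)
    have hinj : Set.InjOn (fun c : Fin 4 → ℤ => c 2) (F : Set (Fin 4 → ℤ)) := by
      intro c hc c' hc' h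
      simp only at h
      rw [mem_coe] at hc hc'
      obtain ⟨h0, h1, h2⟩ := hFm c hc c' hc'
      have hcS := hc
      have hcS' := hc'
      rw [hF, mem_filter] at hcS hcS'
      have hb := (hSm c hcS.1).1
      have hb' := (hSm c' hcS'.1).1
      rw [h] at h2
      have h3 : σ 2 * c' 2 + σ 3 * c 3 - (σ 2 * c' 2 + σ 3 * c' 3) = σ 3 * c 3 - σ 3 * c' 3 := by ring
      rw [h3] at h2
      have h4 := eq_of_dvd (hb 3) (hb' 3) (dvd_cancel_sign (sign_sq hσ 3) h2)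
      funext i
      fin_cases i
      · exact h0
      · exact h1
      · exact h
      · exact h4
    rw [← card_image_of_injOn hinj]
    rcases F.eq_empty_or_nonempty with h0 | ⟨c0, hc0⟩
    · rw [h0]; simp
    refine card_le_two_of_sum r hr0 (σ 2 * (σ 2 * c0 2 + σ 3 * c0 3)) _ (fun t ht => ?_) (fun t ht t' ht' hne => ?_)
    · obtain ⟨c, hc, rfl⟩ := mem_image.1 ht
      rw [hF, mem_filter] at hc
      exact (hSm c hc.1).1 2
    · obtain ⟨c, hc, rfl⟩ := mem_image.1 ht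
      obtain ⟨c', hc', rfl⟩ := mem_image.1 ht'
      obtain ⟨h0, h1, h2⟩ := hFm c hc c' hc'
      obtain ⟨-, -, h3⟩ := hFm c hc c0 hc0
      obtain ⟨-, -, h3'⟩ := hFm c' hc' c0 hc0
      have hcS := hc
      have hcS' := hc'
      rw [hF, mem_filter] at hcS hcS'
      have hq := (hSm c hcS.1).2
      have hq' := (hSm c' hcS'.1).2
      have hb := (hSm c hcS.1).1
      have hb' := (hSm c' hcS'.1).1
      have hs2 := sign_sq hσ 2
      have hs3 := sign_sq hσ 3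
      obtain ⟨u, hu⟩ := h3
      obtain ⟨u', hu'⟩ := h3'
      obtain ⟨v, hv⟩ := hq
      obtain ⟨v', hv'⟩ := hq'
      rw [Fin.sum_univ_four] at hv hv'
      rw [h0, h1] at hv
      -- c 3 = σ 3 (b - σ 2 c 2 + r u)
      obtain ⟨b, hbdef⟩ : ∃ b, b = σ 2 * c0 2 + σ 3 * c0 3 := ⟨_, rfl⟩
      rw [← hbdef] at hu hu' ⊢
      have e3 : c 3 ^ 2 = (b - σ 2 * c 2 + r * u) ^ 2 := by
        have : σ 3 * c 3 = b - σ 2 * c 2 + r * u := by linear_combination hu
        rw [← this, mul_pow]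
        have h5 : σ 3 ^ 2 = 1 := by rw [pow_two]; exact hs3
        rw [h5, one_mul]
      have e3' : c' 3 ^ 2 = (b - σ 2 * c' 2 + r * u') ^ 2 := by
        have : σ 3 * c' 3 = b - σ 2 * c' 2 + r * u' := by linear_combination hu'
        rw [← this, mul_pow]
        have h5 : σ 3 ^ 2 = 1 := by rw [pow_two]; exact hs3
        rw [h5, one_mul]
      have key : (r : ℤ) ∣ 2 * ((c 2 - c' 2) * (c 2 + c' 2 - σ 2 * b)) := by
        refine ⟨v - v' - (2 * (b - σ 2 * c 2) * u + r * u ^ 2) + (2 * (b - σ 2 * c' 2) * u' + r * u' ^ 2), ?_⟩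
        linear_combination hv - hv' - e3 + e3' - (c 2 ^ 2 - c' 2 ^ 2) * hs2
      rcases prime_cancel_two hr hr2 key with h6 | h6
      · exact absurd (eq_of_dvd (hb 2) (hb' 2) h6) hne
      · exact h6
  · refine (card_le_card (t := E ×ˢ Ico (0 : ℤ) r) ?_).trans (by rw [card_product]; simp)
    intro a ha
    obtain ⟨c, hc, rfl⟩ := mem_image.1 ha
    rw [hS, mem_filter, mem_Gl] at hc
    rw [mem_product, mem_Ico]
    exact ⟨hc.2, hc.1.1 0⟩

open Classical in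
/-- solutions modulo `r` with three prescribed signed coordinates -/
lemma triple_fiber (n r : ℕ) (hr : r.Prime) (hr2 : r ≠ 2) (σ : Fin 4 → ℤ) (hσ : σ ∈ signs) (E : Finset (ℤ × ℤ × ℤ)) :
    ((Gl n r).filter (fun c => ((σ 0 * c 0) % r, (σ 1 * c 1) % r, (σ 2 * c 2) % r) ∈ E)).card ≤ 2 * E.card := by
  have hr0 := hr.pos
  obtain ⟨S, hS⟩ : ∃ S, S = (Gl n r).filter (fun c => ((σ 0 * c 0) % r, (σ 1 * c 1) % r, (σ 2 * c 2) % r) ∈ E) := ⟨_, rfl⟩
  rw [← hS]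
  have hSm : ∀ c ∈ S, (∀ i, 0 ≤ c i ∧ c i < r) ∧ (r : ℤ) ∣ (∑ i, c i ^ 2) - n := by
    intro c hc
    rw [hS, mem_filter, mem_Gl] at hc
    exact ⟨hc.1.1, hc.1.2.1⟩
  refine (card_le_mul_card_image (f := fun c : Fin 4 → ℤ => ((σ 0 * c 0) % r, (σ 1 * c 1) % r, (σ 2 * c 2) % r))
    S 2 ?_).trans (Nat.mul_le_mul_left 2 ?_)
  · intro a _
    obtain ⟨F, hF⟩ : ∃ F, F = S.filter (fun c : Fin 4 → ℤ => ((σ 0 * c 0) % r, (σ 1 * c 1) % r, (σ 2 * c 2) % r) = a) := ⟨_, rfl⟩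
    rw [← hF]
    have hFm : ∀ c ∈ F, ∀ c' ∈ F, c 0 = c' 0 ∧ c 1 = c' 1 ∧ c 2 = c' 2 := by
      intro c hc c' hc'
      rw [hF, mem_filter] at hc hc'
      have h1 := hc.2.trans hc'.2.symm
      simp only [Prod.mk.injEq] at h1
      have hb := (hSm c hc.1).1
      have hb' := (hSm c' hc'.1).1
      exact ⟨eq_of_dvd (hb 0) (hb' 0) (dvd_cancel_sign (sign_sq hσ 0) (dvd_of_emod_eq h1.1)),
        eq_of_dvd (hb 1) (hb' 1) (dvd_cancel_sign (sign_sq hσ 1) (dvd_of_emod_eq h1.2.1)),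
        eq_of_dvd (hb 2) (hb' 2) (dvd_cancel_sign (sign_sq hσ 2) (dvd_of_emod_eq h1.2.2))⟩
    have hinj : Set.InjOn (fun c : Fin 4 → ℤ => c 3) (F : Set (Fin 4 → ℤ)) := by
      intro c hc c' hc' h
      simp only at h
      obtain ⟨h0, h1, h2⟩ := hFm c hc c' hc'
      funext i
      fin_cases i
      · exact h0
      · exact h1
      · exact h2
      · exact h
    rw [← card_image_of_injOn hinj]
    refine card_le_two_of_sum r hr0 0 _ (fun t ht => ?_) (fun t ht t' ht' hne => ?_)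
    · obtain ⟨c, hc, rfl⟩ := mem_image.1 ht
      rw [hF, mem_filter] at hc
      exact (hSm c hc.1).1 3
    · obtain ⟨c, hc, rfl⟩ := mem_image.1 ht
      obtain ⟨c', hc', rfl⟩ := mem_image.1 ht'
      obtain ⟨h0, h1, h2⟩ := hFm c hc c' hc'
      have hcS := hc
      have hcS' := hc'
      rw [hF, mem_filter] at hcS hcS'
      have hq := (hSm c hcS.1).2
      have hq' := (hSm c' hcS'.1).2
      have hb := (hSm c hcS.1).1
      have hb' := (hSm c' hcS'.1).1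
      rw [Fin.sum_univ_four] at hq hq'
      rw [h0, h1, h2] at hq
      have key : (r : ℤ) ∣ 2 * ((c 3 - c' 3) * (c 3 + c' 3)) := by
        have h3 := (dvd_sub hq hq').mul_left 2
        have e : 2 * ((c' 0 ^ 2 + c' 1 ^ 2 + c' 2 ^ 2 + c 3 ^ 2 - n) - (c' 0 ^ 2 + c' 1 ^ 2 + c' 2 ^ 2 + c' 3 ^ 2 - n)) =
          2 * ((c 3 - c' 3) * (c 3 + c' 3)) := by ring
        rwa [e] at h3
      rw [sub_zero]
      rcases prime_cancel_two hr hr2 key with h6 | h6
      · exact absurd (eq_of_dvd (hb 3) (hb' 3) h6) hne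
      · exact h6
  · apply card_le_card
    intro a ha
    obtain ⟨c, hc, rfl⟩ := mem_image.1 ha
    rw [hS, mem_filter] at hc
    exact hc.2

end Pool.Agent.Q48.FS
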