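import Pool.Agent.Q48.FS.Fund

set_option autoImplicit false

/-!
# Sums of four squares: the fundamental lemma of the sieve, uniformly in residue classes (proof)
-/

namespace Pool.Agent.Q48.FS

open Finset Pool.Agent.W65.FS

/-- splitting the primes -/
lemma Pr_split (M z z0 : ℕ) : Pr M z = (Pr M z).filter (· ≤ z0) ∪ (Pr M z).filter (z0 < ·) := by
  rw [← filter_or]
  symm
  apply filter_true_of_mem
  intro l _
  exact le_or_gt l z0

lemma Pr_disj (M z z0 : ℕ) : Disjoint ((Pr M z).filter (· ≤ z0)) ((Pr M z).filter (z0 < ·)) := by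
  rw [disjoint_filter]
  intro l _ h1 h2
  omega

/-- the sieve, with explicit error -/
theorem sieve (κ : ℕ) : ∃ C0 : ℕ, 1 ≤ C0 ∧ ∃ C : ℝ, 0 < C ∧ ∀ b : ℕ, C0 ≤ b → ∀ z0 : ℕ, C0 ≤ z0 → 2 * κ + 1 ≤ z0 →
    ∀ (n M : ℕ), 1 ≤ n → 0 < M → Odd M → Squarefree M → ∀ v : Fin 4 → ℤ, Good n M v → ∀ z : ℕ,
    ∀ B : ℕ → Finset (Fin 4 → ℤ), (∀ l ∈ Pr M z, B l ⊆ Gl n l ∧ (B l).card ≤ κ * l ^ 2) →
    |((sift n M v z B).card : ℝ) - (prc n M v).card * Vd n M z B| ≤
      (1 / 2 : ℝ) ^ b * ((prc n M v).card * Vd n M z B) +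
        2 * C * (z0.factorial : ℝ) ^ 15 * (M : ℝ) ^ 11 * ((z : ℝ) + 2) ^ (32 * (C0 * b) + 2) * (n : ℝ) ^ (19 / 20 : ℝ) := by
  classical
  obtain ⟨C0, hC0, hFL⟩ := Pool.Agent.H20R2.fLem κ
  obtain ⟨C, hC, hdist⟩ := distribution
  refine ⟨C0, hC0, C, hC, ?_⟩
  intro b hb z0 hz0 hz0κ n M hn hM hMo hMs v hv z B hB
  set T0 := (Pr M z).filter (· ≤ z0) with hT0
  set P := (Pr M z).filter (z0 < ·) with hP
  have hT0m : ∀ l ∈ T0, l ∈ Pr M z ∧ l ≤ z0 := fun l hl => by rw [hT0, mem_filter] at hl; exact hl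
  have hPm : ∀ l ∈ P, l ∈ Pr M z ∧ z0 < l := fun l hl => by rw [hP, mem_filter] at hl; exact hl
  have hPr : ∀ l ∈ Pr M z, l.Prime ∧ ¬ l ∣ M ∧ l ≠ 2 ∧ l ≤ z := fun l hl => by
    rw [mem_Pr] at hl
    exact ⟨hl.2.1, hl.2.2, by omega, hl.1.2⟩
  have hGpos : ∀ l ∈ Pr M z, 0 < ((Gl n l).card : ℝ) := fun l hl => Gl_pos n l (hPr l hl).1 (hPr l hl).2.2.1
  obtain ⟨J, hJ1, hJ2⟩ := exists_J z
  -- the set
  obtain ⟨A, hA⟩ : ∃ A : Finset (Fin 4 → ℤ), A = (prc n M v).filter (fun X => ∀ l ∈ T0, red l X ∉ B l) := ⟨_, rfl⟩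
  obtain ⟨a, ha⟩ : ∃ a : ℝ, a = (prc n M v).card * ∏ l ∈ T0, (1 - ((B l).card : ℝ) / (Gl n l).card) := ⟨_, rfl⟩
  set g : ℕ → ℝ := fun l => ((B l).card : ℝ) / (Gl n l).card with hg
  have hg1 : ∀ l ∈ Pr M z, 0 ≤ g l ∧ g l ≤ 1 := by
    intro l hl
    refine ⟨by rw [hg]; positivity, ?_⟩
    rw [hg]
    simp only
    rw [div_le_one (hGpos l hl)]
    exact_mod_cast card_le_card (hB l hl).1
  have ha0 : 0 ≤ a := by
    rw [ha]
    refine mul_nonneg (Nat.cast_nonneg _) (prod_nonneg fun l hl => ?_)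
    have := (hg1 l (hT0m l hl).1).2
    rw [hg] at this
    simpa using this
  have haV : a * ∏ p ∈ P, (1 - g p) = (prc n M v).card * Vd n M z B := by
    rw [ha, mul_assoc]
    congr 1
    unfold Vd
    rw [Pr_split M z z0, prod_union (Pr_disj M z z0)]
  obtain ⟨e, he⟩ := exists_injective_nat (Fin 4 → ℤ)
  set Ω : Finset ℕ := A.map ⟨e, he⟩ with hΩ
  set hit : ℕ → ℕ → Prop := fun p m => ∀ X, e X = m → red p X ∈ B p with hhit
  have hhit' : ∀ p X, hit p (e X) ↔ red p X ∈ B p := by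
    intro p X
    constructor
    · intro h; exact h X rfl
    · intro h Y hY
      rw [he hY]; exact h
  set err : Finset ℕ → ℝ := fun T => C * (M : ℝ) ^ 11 * ((z0.factorial : ℝ) * ((∏ l ∈ T, l : ℕ) : ℝ)) ^ 15 * (n : ℝ) ^ (19 / 20 : ℝ) with herr
  have hfac : ((∏ l ∈ T0, l : ℕ) : ℝ) ≤ (z0.factorial : ℝ) := by
    have h1 : (∏ l ∈ T0, l) ∣ z0.factorial := by
      refine Finset.prod_primes_dvd _ (fun l hl => (hPr l (hT0m l hl).1).1.prime) (fun l hl => ?_)
      exact ((hPr l (hT0m l hl).1).1.dvd_factorial).2 (hT0m l hl).2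
    exact_mod_cast Nat.le_of_dvd (Nat.factorial_pos _) h1
  have hgb : ∀ p ∈ P, 0 ≤ g p ∧ g p ≤ κ / ((p : ℝ) - 1) := by
    intro l hl
    have hlp := hPr l (hPm l hl).1
    refine ⟨(hg1 l (hPm l hl).1).1, ?_⟩
    exact gg_bound' κ n l hlp.1 hlp.2.2.1 (B l) (hB l (hPm l hl).1).2
  have hfl := hFL b J z0 P g hb hz0 (fun p hp => ⟨(hPr p (hPm p hp).1).1, (hPm p hp).2, ((hPr p (hPm p hp).1).2.2.2).trans hJ1⟩)
    hgb Ω (fun _ => 1) hit a err (fun _ _ => zero_le_one) ha0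
    (fun T hT _ => by
      have hdisj : Disjoint T0 T := by
        rw [disjoint_left]
        intro l h1 h2
        have h3 := (hT0m l h1).2
        have h4 := (hPm l (hT h2)).2
        omega
      have hTm : ∀ l ∈ T0 ∪ T, l ∈ Pr M z := by
        intro l hl
        rcases mem_union.1 hl with h | h
        · exact (hT0m l h).1
        · exact (hPm l (hT h)).1
      have h1 := hdist n M hn hM hMo hMs v hv (T0 ∪ T)
        (fun l hl => ⟨(hPr l (hTm l hl)).1, (hPr l (hTm l hl)).2.1, (hPr l (hTm l hl)).2.2.1, by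
          have h2 := hGpos l (hTm l hl)
          exact Finset.card_pos.1 (by exact_mod_cast h2)⟩)
        (fun l => if l ∈ T0 then Gl n l \ B l else B l) (fun l hl => by
          by_cases h2 : l ∈ T0
          · simp only [if_pos h2]
            exact sdiff_subset
          · simp only [if_neg h2]
            exact (hB l (hTm l hl)).1)
      have h2 : ∑ m ∈ Ω.filter (fun m => ∀ p ∈ T, hit p m), (1 : ℝ) =
          (((prc n M v).filter (fun X => ∀ l ∈ T0 ∪ T, red l X ∈ (fun l => if l ∈ T0 then Gl n l \ B l else B l) l)).card : ℝ) := by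
        rw [Finset.sum_const, nsmul_eq_mul, mul_one, hΩ, Finset.filter_map, Finset.card_map]
        congr 2
        ext X
        simp only [Finset.mem_filter, Function.comp, Function.Embedding.coeFn_mk, hhit']
        rw [hA, mem_filter]
        constructor
        · rintro ⟨⟨h3, h4⟩, h5⟩
          refine ⟨h3, fun l hl => ?_⟩
          by_cases h6 : l ∈ T0
          · rw [if_pos h6, mem_sdiff]
            refine ⟨?_, h4 l h6⟩
            unfold prc at h3
            rw [mem_filter, mem_repsc] at h3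
            exact red_mem n l (hPr l (hTm l hl)).1 X h3.1.1 h3.2
          · rw [if_neg h6]
            exact h5 l ((mem_union.1 hl).resolve_left h6)
        · rintro ⟨h3, h4⟩
          refine ⟨⟨h3, fun l hl => ?_⟩, fun l hl => ?_⟩
          · have h5 := h4 l (mem_union_left _ hl)
            rw [if_pos hl, mem_sdiff] at h5
            exact h5.2
          · have h5 := h4 l (mem_union_right _ hl)
            rw [if_neg (fun h6 => (disjoint_left.1 hdisj) h6 hl)] at h5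
            exact h5
      have h3 : ((prc n M v).card : ℝ) * ∏ l ∈ T0 ∪ T, (((if l ∈ T0 then Gl n l \ B l else B l).card : ℝ) / (Gl n l).card) =
          a * ∏ l ∈ T, g l := by
        rw [prod_union hdisj, ← mul_assoc]
        congr 1
        · rw [ha]
          congr 1
          apply prod_congr rfl
          intro l hl
          rw [if_pos hl]
          have h4 := hGpos l (hT0m l hl).1
          have h5 : ((Gl n l \ B l).card : ℝ) = (Gl n l).card - (B l).card := by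
            rw [card_sdiff_of_subset (hB l (hT0m l hl).1).1, Nat.cast_sub (card_le_card (hB l (hT0m l hl).1).1)]
          rw [h5, sub_div, div_self h4.ne']
        · apply prod_congr rfl
          intro l hl
          rw [if_neg (fun h6 => (disjoint_left.1 hdisj) h6 hl)]
      rw [h2]
      refine (le_of_eq ?_).trans (h1.trans ?_)
      · rw [← h3]
      · rw [herr]
        simp only
        rw [prod_union hdisj]
        push_cast
        push_cast at hfac
        gcongr)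
  -- the sifted set
  have hScard : ∑ m ∈ Ω.filter (fun m => ∀ p ∈ P, ¬ hit p m), (1 : ℝ) = ((sift n M v z B).card : ℝ) := by
    rw [Finset.sum_const, nsmul_eq_mul, mul_one, hΩ, Finset.filter_map, Finset.card_map]
    congr 2
    ext X
    simp only [Finset.mem_filter, Function.comp, Function.Embedding.coeFn_mk, hhit']
    rw [hA, mem_filter]
    unfold sift
    rw [mem_filter]
    constructor
    · rintro ⟨⟨h3, h4⟩, h5⟩
      refine ⟨h3, fun l hl => ?_⟩
      by_cases h6 : l ≤ z0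
      · exact h4 l (by rw [hT0, mem_filter]; exact ⟨hl, h6⟩)
      · exact h5 l (by rw [hP, mem_filter]; exact ⟨hl, by omega⟩)
    · rintro ⟨h3, h4⟩
      exact ⟨⟨h3, fun l hl => h4 l (hT0m l hl).1⟩, fun l hl => h4 l (hPm l hl).1⟩
  rw [hScard, haV] at hfl
  refine hfl.trans (add_le_add_right ?_ _)
  -- the error
  obtain ⟨D, hD⟩ : ∃ D : ℕ, D = (2 ^ 2 ^ J) ^ (C0 * b) := ⟨_, rfl⟩
  have hDz : (D : ℝ) ≤ ((z : ℝ) + 2) ^ (2 * (C0 * b)) := by
    have : D ≤ (z + 2) ^ (2 * (C0 * b)) := by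
      rw [hD, pow_mul (z + 2) 2]
      exact Nat.pow_le_pow_left hJ2 _
    exact_mod_cast this
  have h1 : ∀ T ∈ P.powerset.filter (fun T : Finset ℕ => ∏ p ∈ T, p ≤ (2 ^ 2 ^ J) ^ (C0 * b)), err T ≤
      C * (M : ℝ) ^ 11 * ((z0.factorial : ℝ) * (D : ℝ)) ^ 15 * (n : ℝ) ^ (19 / 20 : ℝ) := by
    intro T hT
    have h2 := (Finset.mem_filter.1 hT).2
    rw [← hD] at h2
    have h3 : ((∏ l ∈ T, l : ℕ) : ℝ) ≤ (D : ℝ) := by exact_mod_cast h2
    rw [herr]
    simp only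
    gcongr
  have h2 := Finset.sum_le_sum h1
  rw [Finset.sum_const, nsmul_eq_mul] at h2
  have h3 := card_sets P (fun p hp => (hPr p (hPm p hp).1).1) ((2 ^ 2 ^ J) ^ (C0 * b))
  have h4 : (((P.powerset.filter (fun T : Finset ℕ => ∏ p ∈ T, p ≤ (2 ^ 2 ^ J) ^ (C0 * b))).card : ℕ) : ℝ) ≤ (D : ℝ) := by
    rw [hD]
    exact_mod_cast h3
  have hJz : (J : ℝ) + 2 ≤ 2 * ((z : ℝ) + 2) ^ 2 := by
    have h5 : J + 2 ≤ 2 * (z + 2) ^ 2 := by
      have h6 : J < 2 ^ J := Nat.lt_two_pow_self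
      have h7 : 2 ^ J < 2 ^ 2 ^ J := Nat.lt_two_pow_self
      omega
    exact_mod_cast h5
  have h5 : ((J : ℝ) + 2) * ∑ T ∈ P.powerset.filter (fun T : Finset ℕ => ∏ p ∈ T, p ≤ (2 ^ 2 ^ J) ^ (C0 * b)), err T ≤
      (2 * ((z : ℝ) + 2) ^ 2) * ((D : ℝ) * (C * (M : ℝ) ^ 11 * ((z0.factorial : ℝ) * (D : ℝ)) ^ 15 * (n : ℝ) ^ (19 / 20 : ℝ))) := by
    apply mul_le_mul hJz (h2.trans (by gcongr)) _ (by positivity)
    apply Finset.sum_nonneg
    intro T _
    rw [herr]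
    positivity
  refine h5.trans ?_
  calc (2 * ((z : ℝ) + 2) ^ 2) * ((D : ℝ) * (C * (M : ℝ) ^ 11 * ((z0.factorial : ℝ) * (D : ℝ)) ^ 15 * (n : ℝ) ^ (19 / 20 : ℝ)))
      = (2 * C * (z0.factorial : ℝ) ^ 15 * (M : ℝ) ^ 11) * (((z : ℝ) + 2) ^ 2 * (D : ℝ) ^ 16) * (n : ℝ) ^ (19 / 20 : ℝ) := by ring
    _ ≤ (2 * C * (z0.factorial : ℝ) ^ 15 * (M : ℝ) ^ 11) * (((z : ℝ) + 2) ^ 2 * (((z : ℝ) + 2) ^ (2 * (C0 * b))) ^ 16) *
        (n : ℝ) ^ (19 / 20 : ℝ) := by gcongr
    _ = _ := by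
      rw [← pow_mul, ← pow_add]
      ring_nf

end Pool.Agent.Q48.FS
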