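import Pool.Agent.Q48.FS.Ord

set_option autoImplicit false

/-!
# Sums of four squares and powers of two: almost all representations
-/

namespace Pool.Agent.Q48.FS

open Finset Pool.Agent.W65.FS

open Classical in
/-- excluded classes for the sum `2 ^ (x + y) + 2 ^ (z + w) + 1` -/
noncomputable def B2 (n r : ℕ) : Finset (Fin 4 → ℤ) :=
  (Gl n r).filter fun c => ∃ h ∈ mult r, ∃ σ ∈ signs,
    ((σ 0 * c 0 + σ 1 * c 1) % r, (σ 2 * c 2 + σ 3 * c 3) % r) ∈ E2 (h * r + 1) r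

open Classical in
/-- excluded classes for the sum `2 ^ x + 2 ^ y + 2 ^ z + 1` -/
noncomputable def B3 (n r : ℕ) : Finset (Fin 4 → ℤ) :=
  (Gl n r).filter fun c => ∃ h ∈ mult r, ∃ σ ∈ signs, ((σ 0 * c 0) % r, (σ 1 * c 1) % r, (σ 2 * c 2) % r) ∈ E3 (h * r + 1) r

lemma card_B2 (n r : ℕ) (hr : r.Prime) (hr2 : r ≠ 2) : ((B2 n r).card : ℝ) ≤ (32 * ∑ h ∈ mult r, (h : ℝ) ^ 2) * (r : ℝ) ^ 2 := by
  classical
  have h1 : B2 n r ⊆ (mult r).biUnion fun h => signs.biUnion fun σ =>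
      (Gl n r).filter (fun c => ((σ 0 * c 0 + σ 1 * c 1) % r, (σ 2 * c 2 + σ 3 * c 3) % r) ∈ E2 (h * r + 1) r) := by
    intro c hc
    unfold B2 at hc
    rw [mem_filter] at hc
    obtain ⟨h2, h, hh, σ, hσ, h3⟩ := hc
    rw [mem_biUnion]
    refine ⟨h, hh, ?_⟩
    rw [mem_biUnion]
    exact ⟨σ, hσ, mem_filter.2 ⟨h2, h3⟩⟩
  have h2 : (B2 n r).card ≤ ∑ h ∈ mult r, 32 * (h * r * r) := by
    refine (card_le_card h1).trans (card_biUnion_le.trans (sum_le_sum fun h hh => ?_))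
    refine card_biUnion_le.trans ?_
    calc ∑ σ ∈ signs, ((Gl n r).filter (fun c => ((σ 0 * c 0 + σ 1 * c 1) % r, (σ 2 * c 2 + σ 3 * c 3) % r) ∈ E2 (h * r + 1) r)).card
        ≤ ∑ σ ∈ signs, 2 * (h * r * r) := by
          apply sum_le_sum
          intro σ hσ
          refine (pair_fiber n r hr hr2 σ hσ _).trans ?_
          gcongr
          exact (card_E2 _ _).trans (dvd_od r h hr hr2 hh).2
      _ = 32 * (h * r * r) := by
          rw [sum_const, card_signs, smul_eq_mul]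
          ring
  calc ((B2 n r).card : ℝ) ≤ ∑ h ∈ mult r, 32 * ((h : ℝ) * r * r) := by exact_mod_cast h2
    _ ≤ ∑ h ∈ mult r, 32 * ((h : ℝ) ^ 2 * r * r) := by
      apply sum_le_sum
      intro h hh
      rw [mem_mult] at hh
      have h3 : (1 : ℝ) ≤ h := by exact_mod_cast hh.1.1
      have h4 : (h : ℝ) ≤ (h : ℝ) ^ 2 := by nlinarith
      gcongr
    _ = _ := by
      rw [mul_sum, sum_mul]
      apply sum_congr rfl
      intro h _
      ring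

lemma card_B3 (n r : ℕ) (hr : r.Prime) (hr2 : r ≠ 2) : ((B3 n r).card : ℝ) ≤ (32 * ∑ h ∈ mult r, (h : ℝ) ^ 2) * (r : ℝ) ^ 2 := by
  classical
  have h1 : B3 n r ⊆ (mult r).biUnion fun h => signs.biUnion fun σ =>
      (Gl n r).filter (fun c => ((σ 0 * c 0) % r, (σ 1 * c 1) % r, (σ 2 * c 2) % r) ∈ E3 (h * r + 1) r) := by
    intro c hc
    unfold B3 at hc
    rw [mem_filter] at hc
    obtain ⟨h2, h, hh, σ, hσ, h3⟩ := hc
    rw [mem_biUnion]
    refine ⟨h, hh, ?_⟩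
    rw [mem_biUnion]
    exact ⟨σ, hσ, mem_filter.2 ⟨h2, h3⟩⟩
  have h2 : (B3 n r).card ≤ ∑ h ∈ mult r, 32 * ((h * r) * (h * r)) := by
    refine (card_le_card h1).trans (card_biUnion_le.trans (sum_le_sum fun h hh => ?_))
    refine card_biUnion_le.trans ?_
    calc ∑ σ ∈ signs, ((Gl n r).filter (fun c => ((σ 0 * c 0) % r, (σ 1 * c 1) % r, (σ 2 * c 2) % r) ∈ E3 (h * r + 1) r)).card
        ≤ ∑ σ ∈ signs, 2 * ((h * r) * (h * r)) := by
          apply sum_le_sum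
          intro σ hσ
          refine (triple_fiber n r hr hr2 σ hσ _).trans ?_
          have h3 := (dvd_od r h hr hr2 hh).2
          exact Nat.mul_le_mul_left 2 ((card_E3 _ _).trans (Nat.mul_le_mul h3 h3))
      _ = 32 * ((h * r) * (h * r)) := by
          rw [sum_const, card_signs, smul_eq_mul]
          ring
  calc ((B3 n r).card : ℝ) ≤ ∑ h ∈ mult r, 32 * (((h : ℝ) * r) * (h * r)) := by exact_mod_cast h2
    _ = _ := by
      rw [mul_sum, sum_mul]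
      apply sum_congr rfl
      intro h _
      ring

/-- **Almost all representations avoid the excluded classes.** -/
theorem almost_all (ε : ℝ) (hε : 0 < ε) : ∃ δ : ℝ, 0 < δ ∧ ∃ r₀ n₀ : ℕ, ∀ n : ℕ, Odd n → n₀ ≤ n →
    ∀ B : ℕ → Finset (Fin 4 → ℤ), (∀ r, r.Prime → r ≠ 2 → B r ⊆ Gl n r ∧
      ((B r).card : ℝ) ≤ (32 * ∑ h ∈ mult r, (h : ℝ) ^ 2) * (r : ℝ) ^ 2) →
    (({X | X ∈ preps n ∧ ∃ r : ℕ, r.Prime ∧ r₀ ≤ r ∧ (r : ℝ) ≤ (n : ℝ) ^ δ ∧ red r X ∈ B r} : Set (Fin 4 → ℤ)).ncard : ℝ) ≤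
      ε * (preps n).card := by
  classical
  obtain ⟨δ, hδ, n₀, h⟩ := first_moment ε hε
  obtain ⟨r₀, hr₀⟩ := tail_small (ε / 128) (by positivity)
  refine ⟨δ, hδ, r₀ + 3, n₀, fun n hn hn0 B hB => ?_⟩
  obtain ⟨P, hP⟩ : ∃ P : Finset ℕ, P = (Icc (r₀ + 3) ⌊(n : ℝ) ^ δ⌋₊).filter Nat.Prime := ⟨_, rfl⟩
  have hPm : ∀ r, r ∈ P ↔ (r₀ + 3 ≤ r ∧ (r : ℝ) ≤ (n : ℝ) ^ δ) ∧ r.Prime := by
    intro r
    rw [hP, mem_filter, mem_Icc]
    constructor
    · rintro ⟨⟨h1, h2⟩, h3⟩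
      exact ⟨⟨h1, (Nat.cast_le.2 h2).trans (Nat.floor_le (Real.rpow_nonneg (Nat.cast_nonneg _) _))⟩, h3⟩
    · rintro ⟨⟨h1, h2⟩, h3⟩
      exact ⟨⟨h1, Nat.le_floor h2⟩, h3⟩
  have h1 := h n hn hn0 P (fun r hr => by
      rw [hPm] at hr
      exact ⟨hr.2, by omega, hr.1.2⟩) B (fun r hr => by
      rw [hPm] at hr
      exact (hB r hr.2 (by omega)).1) (fun r => 32 * ∑ h ∈ mult r, (h : ℝ) ^ 2) (fun r hr => by
      rw [hPm] at hr
      exact (hB r hr.2 (by omega)).2) (by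
      have h2 := hr₀ P (fun r hr => by
        rw [hPm] at hr
        exact ⟨hr.2, by omega, by omega⟩)
      calc ∑ r ∈ P, (32 * ∑ h ∈ mult r, (h : ℝ) ^ 2) / r = 32 * ∑ r ∈ P, (∑ h ∈ mult r, (h : ℝ) ^ 2) / r := by
            rw [mul_sum]
            apply sum_congr rfl
            intro r _
            ring
        _ ≤ 32 * (ε / 128) := by gcongr
        _ = ε / 4 := by ring)
  refine le_trans (le_of_eq ?_) h1
  rw [← Set.ncard_coe_finset]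
  congr 2
  ext X
  rw [mem_coe, mem_filter]
  constructor
  · rintro ⟨h2, r, h3, h4, h5, h6⟩
    exact ⟨h2, r, (hPm r).2 ⟨⟨h4, h5⟩, h3⟩, h6⟩
  · rintro ⟨h2, r, h3, h4⟩
    rw [hPm] at h3
    exact ⟨h2, r, h3.2, h3.1.1, h3.1.2, h4⟩

/-- at most `16` integer vectors have the same absolute values -/
lemma card_abs_fiber (S : Finset (Fin 4 → ℤ)) : S.card ≤ 16 * (S.image (fun X : Fin 4 → ℤ => fun i => (X i).natAbs)).card := by
  classical
  refine card_le_mul_card_image S 16 (fun a _ => ?_)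
  refine (card_le_card (t := signs.image (fun σ : Fin 4 → ℤ => fun i => σ i * a i)) ?_).trans
    (card_image_le.trans (by rw [card_signs]))
  intro X hX
  rw [mem_filter] at hX
  obtain ⟨σ, hσ, h1⟩ := exists_signs X
  rw [mem_image]
  refine ⟨σ, hσ, ?_⟩
  funext i
  have h2 : (a i : ℤ) = σ i * X i := by
    rw [← hX.2]
    exact h1 i
  rw [h2, ← mul_assoc, sign_sq hσ i, one_mul]

lemma gc_iff (X : Fin 4 → ℤ) : gc X = 1 ↔ ∀ l : ℕ, l.Prime → ∃ i, ¬ (l : ℤ) ∣ X i := by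
  constructor
  · intro h1 l hl
    by_contra h2
    push Not at h2
    have h3 := (dvd_gc l X).2 h2
    rw [h1] at h3
    exact hl.one_lt.ne' (Nat.dvd_one.1 h3)
  · intro h1
    by_contra h2
    obtain ⟨l, hl, hd⟩ := Nat.exists_prime_and_dvd h2
    obtain ⟨i, hi⟩ := h1 l hl
    exact hi ((dvd_gc l X).1 hd i)

/-- the primitive representations in integers -/
lemma mem_preps (n : ℕ) (X : Fin 4 → ℤ) : X ∈ preps n ↔ ∑ i, X i ^ 2 = n ∧ ∀ l : ℕ, l.Prime → ∃ i, ¬ (l : ℤ) ∣ X i := by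
  unfold preps
  rw [mem_filter, mem_reps, gc_iff]

lemma preps_card_lower (ε : ℝ) (hε : 0 < ε) : ∃ n₀ : ℕ, ∀ n : ℕ, Odd n → n₀ ≤ n → 64 * (n : ℝ) ^ (1 - ε) ≤ (preps n).card := by
  obtain ⟨c, hc, h⟩ := preps_lower (ε / 2) (by positivity)
  obtain ⟨n1, hn1⟩ := large_rpow (64 / c) (ε / 2) (by positivity)
  refine ⟨n1, fun n hn hn0 => ?_⟩
  have h1 := h n hn
  have h2 := hn1 n hn0
  have hn0 : (0 : ℝ) < n := by exact_mod_cast hn.pos
  rw [div_le_iff₀ hc] at h2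
  refine le_trans ?_ h1
  have e : (n : ℝ) ^ (1 - ε / 2) = (n : ℝ) ^ (ε / 2) * (n : ℝ) ^ (1 - ε) := by
    rw [← Real.rpow_add hn0]
    congr 1
    ring
  rw [e]
  calc 64 * (n : ℝ) ^ (1 - ε) ≤ ((n : ℝ) ^ (ε / 2) * c) * (n : ℝ) ^ (1 - ε) := by gcongr
    _ = _ := by ring

end Pool.Agent.Q48.FS
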